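import Pool.Agent.H817.MA.C11b

/-!
Closed special affine 3-manifolds with injective developing map and a nontrivial solvable normal
subgroup of the holonomy are complete.
-/

set_option autoImplicit false
set_option linter.unusedSectionVars false

namespace Pool.Agent.H817.MA

open Pool.Agent.W689.Mk Set Filter Topology Module
open scoped commutatorElement
open Pool.Agent.Results.MP_df2bd8_gt

section
variable {X Γ E : Type} [TopologicalSpace X] [T2Space X] [SecondCountableTopology X]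
  [ConnectedSpace X] [Group Γ] [MulAction Γ X]
  [NormedAddCommGroup E] [NormedSpace ℝ E] [FiniteDimensional ℝ E]
  {dev : X → E} {hol : Γ →* (E ≃ᵃ[ℝ] E)}

omit [FiniteDimensional ℝ E] in
theorem hol_eq (γ : Γ) (v : E) : hol γ v = hol γ 0 + (hol γ).linear v := by
  have := hol_add (hol := hol) γ 0 v
  rw [zero_add] at this
  exact this

theorem nt_complete (D : AffData X Γ E dev hol) (hinj : Function.Injective dev)
    (h3 : finrank ℝ E = 3) (K A : Subgroup Γ) (hK : K.FiniteIndex)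
    (hcomm : CommensuratedSubgroups.Commuting hol A)
    (hnor : CommensuratedSubgroups.Normalises hol K A)
    (hne : ∃ a ∈ A, ∃ q : E, hol a q ≠ q)
    (hnt : ∀ a ∈ A, ∀ d : E, (∀ q, hol a q = q + d) → d = 0) : IsHomeomorph dev := by
  obtain ⟨N, hN⟩ : ∃ N : Γ → E →ₗ[ℝ] E, N = fun a =>
    (((hol a).linear : E →ₗ[ℝ] E) - LinearMap.id) := ⟨_, rfl⟩
  have hNv : ∀ a v, N a v = (hol a).linear v - v := fun a v => by rw [hN]; rfl
  have hcl : ∀ a ∈ A, ∀ b ∈ A, ∀ v, (hol a).linear ((hol b).linear v) =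
      (hol b).linear ((hol a).linear v) := by
    intro a ha b hb v
    have h1 := hcomm a ha b hb v
    have h2 := hcomm a ha b hb 0
    rw [hol_eq b v, hol_eq a v, hol_add, hol_add, h2] at h1
    exact add_left_cancel h1
  have hc : ∀ a ∈ (A : Set Γ), ∀ b ∈ (A : Set Γ), ∀ v, N a (N b v) = N b (N a v) := by
    intro a ha b hb v
    rw [hNv, hNv, hNv, hNv, map_sub, map_sub, hcl a ha b hb]
    abel
  have hn : ∀ a ∈ (A : Set Γ), ∃ k : ℕ, (N a) ^ k = 0 := by
    intro a ha
    let _ : MeasurableSpace E := borel E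
    have : BorelSpace E := ⟨rfl⟩
    obtain ⟨k, hk⟩ := (CommensuratedSubgroups.result E X Γ dev hol D K A hK).unipotent hcomm hnor
      a ha
    refine ⟨k + 1, ?_⟩
    refine LinearMap.ext fun v => ?_
    have hNa : N a = (((hol a).linear : E →ₗ[ℝ] E) - LinearMap.id : Module.End ℝ E) := by rw [hN]
    rw [← hNa] at hk
    have h1 : N a v = (hol a v - v) - (hol a 0 - 0) := by
      rw [hNv, hol_eq a v]
      abel
    rw [pow_succ, Module.End.mul_apply, h1, map_sub, hk, hk, sub_zero]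
    rfl
  -- fixed vectors and moved vectors
  obtain ⟨F, hF⟩ : ∃ F : Submodule ℝ E, ∀ v, v ∈ F ↔ ∀ a ∈ A, (hol a).linear v = v := by
    refine ⟨⨅ a ∈ A, LinearMap.ker (N a), fun v => ?_⟩
    simp only [Submodule.mem_iInf, LinearMap.mem_ker, hNv, sub_eq_zero]
  obtain ⟨I, hI⟩ : ∃ I, I = Submodule.span ℝ {w | ∃ a ∈ A, ∃ v, w = (hol a).linear v - v} :=
    ⟨_, rfl⟩
  have hIm : ∀ a ∈ A, ∀ v, (hol a).linear v - v ∈ I := by
    intro a ha v
    rw [hI]
    exact Submodule.subset_span ⟨a, ha, v, rfl⟩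
  -- conjugation
  have hcj : ∀ γ ∈ K, ∀ a ∈ A, ∃ b ∈ A, ∀ v, (hol b).linear ((hol γ).linear v) =
      (hol γ).linear ((hol a).linear v) := by
    intro γ hγ a ha
    obtain ⟨b, hb, h1⟩ := hnor γ hγ a ha
    refine ⟨b, hb, fun v => ?_⟩
    have h2 : ∀ q, hol b (hol γ q) = hol γ (hol a q) := by
      intro q
      rw [← h1, map_mul, map_mul]
      change hol γ (hol a (hol γ⁻¹ (hol γ q))) = _
      rw [hol_inv_apply]
    have h4 := h2 v
    have h5 := h2 0
    rw [hol_eq γ v, hol_eq a v, hol_add, hol_add, h5] at h4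
    exact add_left_cancel h4
  have hFi : ∀ γ ∈ K, ∀ v ∈ F, (hol γ).linear v ∈ F := by
    intro γ hγ v hv
    rw [hF] at hv ⊢
    intro a ha
    obtain ⟨b, hb, h1⟩ := hcj γ⁻¹ (K.inv_mem hγ) a ha
    -- L b (L γ⁻¹ w) = L γ⁻¹ (L a w), w = L γ v
    have h2 := h1 ((hol γ).linear v)
    have h4 : (hol γ⁻¹).linear ((hol γ).linear v) = v := lin_inv_apply (hol := hol) γ v
    rw [h4, hv b hb] at h2
    have h5 := lin_inv_apply (hol := hol) γ⁻¹ ((hol a).linear ((hol γ).linear v))
    rw [inv_inv] at h5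
    unfold lin at h5
    rw [← h2] at h5
    exact h5.symm
  have hIi : ∀ γ ∈ K, ∀ v ∈ I, (hol γ).linear v ∈ I := by
    intro γ hγ v hv
    have h1 : I ≤ I.comap ((hol γ).linear : E →ₗ[ℝ] E) := by
      nth_rewrite 1 [hI]
      rw [Submodule.span_le]
      rintro _ ⟨a, ha, v, rfl⟩
      obtain ⟨b, hb, h2⟩ := hcj γ hγ a ha
      change (hol γ).linear ((hol a).linear v - v) ∈ I
      rw [map_sub, ← h2]
      exact hIm b hb _
    exact h1 hv
  have hFtop : F ≠ ⊤ := by
    intro htop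
    have hLid : ∀ a ∈ A, ∀ v, (hol a).linear v = v := by
      intro a ha v
      exact (hF v).1 (by rw [htop]; exact Submodule.mem_top) a ha
    obtain ⟨a, ha, q, hq⟩ := hne
    apply hq
    have h1 := hnt a ha (hol a 0) (fun q => by rw [hol_eq a q, hLid a ha, add_comm])
    rw [hol_eq a q, h1, zero_add, hLid a ha]
  have hFbot : F ≠ ⊥ := by
    obtain ⟨v, -, hv0, hv⟩ := common_kernel N (A : Set Γ) hc hn _ (⊤ : Submodule ℝ E) le_rfl
      (by
        intro h
        have h1 : finrank ℝ (⊤ : Submodule ℝ E) = 0 := by rw [h, finrank_bot]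
        rw [finrank_top, h3] at h1
        omega)
      (fun _ _ _ _ => Submodule.mem_top)
    rw [Submodule.ne_bot_iff]
    refine ⟨v, ?_, hv0⟩
    rw [hF]
    intro a ha
    have := hv a ha
    rw [hNv, sub_eq_zero] at this
    exact this
  have hIbot : I ≠ ⊥ := by
    intro hbot
    apply hFtop
    rw [eq_top_iff]
    intro v _
    rw [hF]
    intro a ha
    have h1 := hIm a ha v
    rw [hbot, Submodule.mem_bot, sub_eq_zero] at h1
    exact h1
  have hItop : I ≠ ⊤ := by
    obtain ⟨ψ, hψ0, hψ⟩ := common_range N (A : Set Γ) hc hn (by rw [h3]; norm_num)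
    intro htop
    apply hψ0
    have h1 : I ≤ LinearMap.ker ψ := by
      rw [hI, Submodule.span_le]
      rintro _ ⟨a, ha, v, rfl⟩
      change ψ ((hol a).linear v - v) = 0
      rw [← hNv]
      exact hψ a ha v
    rw [htop, top_le_iff, LinearMap.ker_eq_top] at h1
    exact h1
  have hFIbot : F ⊓ I ≠ ⊥ := by
    obtain ⟨v, hvI, hv0, hv⟩ := common_kernel N (A : Set Γ) hc hn _ I le_rfl hIbot
      (fun a ha v _ => by rw [hNv]; exact hIm a ha v)
    rw [Submodule.ne_bot_iff]
    refine ⟨v, ⟨(hF v).2 ?_, hvI⟩, hv0⟩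
    intro a ha
    have := hv a ha
    rw [hNv, sub_eq_zero] at this
    exact this
  -- dimensions
  have dpos : ∀ V : Submodule ℝ E, V ≠ ⊥ → 1 ≤ finrank ℝ V := by
    intro V hV
    by_contra hcon
    exact hV (Submodule.finrank_eq_zero.1 (by omega))
  have dlt : ∀ V : Submodule ℝ E, V ≠ ⊤ → finrank ℝ V ≤ 2 := by
    intro V hV
    have := Submodule.finrank_lt hV
    omega
  have hF1 := dpos F hFbot
  have hF2 := dlt F hFtop
  have hI1 := dpos I hIbot
  have hI2 := dlt I hItop
  have hFI1 := dpos _ hFIbot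
  have hle1 : finrank ℝ (F ⊓ I : Submodule ℝ E) ≤ finrank ℝ F := Submodule.finrank_mono inf_le_left
  have hle2 : finrank ℝ (F ⊓ I : Submodule ℝ E) ≤ finrank ℝ I := Submodule.finrank_mono inf_le_right
  have hFcase : finrank ℝ F = 1 ∨ finrank ℝ F = 2 := by omega
  have hIcase : finrank ℝ I = 1 ∨ finrank ℝ I = 2 := by omega
  rcases hFcase with hf | hf
  · -- F ≤ I
    have hFI : F ⊓ I = F := Submodule.eq_of_le_of_finrank_le inf_le_left (by omega)
    have hFI' : F ≤ I := inf_eq_left.1 hFI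
    rcases hIcase with hi | hi
    · have hEq : F = I := Submodule.eq_of_le_of_finrank_le hFI' (by omega)
      obtain ⟨u, hu, hu0⟩ := Submodule.exists_mem_ne_zero_of_ne_bot hFbot
      have hlu : ∀ v ∈ F, ∃ c : ℝ, v = c • u := by
        intro v hv
        have hu' : (⟨u, hu⟩ : F) ≠ 0 := fun h => hu0 (congrArg Subtype.val h)
        obtain ⟨c, hc⟩ := (finrank_eq_one_iff_of_nonzero' _ hu').1 hf ⟨v, hv⟩
        exact ⟨c, (congrArg Subtype.val hc).symm⟩
      refine case11 D hinj h3 K A hK hcomm hnor u hu0 (fun γ hγ => hlu _ (hFi γ hγ u hu))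
        ((hF u).1 hu) (fun v hv => hlu v ((hF v).2 hv)) (fun a ha v => hlu _ ?_)
      rw [hEq]
      exact hIm a ha v
    · exact flag_complete D hinj h3 K hK F I hf hi hFI' hFi hIi
  · rcases hIcase with hi | hi
    · have hFI : F ⊓ I = I := Submodule.eq_of_le_of_finrank_le inf_le_right (by omega)
      exact flag_complete D hinj h3 K hK I F hi hf (inf_eq_right.1 hFI) hIi hFi
    · by_cases hEq : F = I
      · refine case22 D hinj h3 K A hK hcomm hnor F hf hFi (fun a ha v hv => (hF v).1 hv a ha)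
          (fun a ha v => by rw [hEq]; exact hIm a ha v) ?_
        rw [← hI, hEq]
      · have h1 : finrank ℝ (F ⊓ I : Submodule ℝ E) = 1 := by
          by_contra hcon
          have h2 : finrank ℝ (F ⊓ I : Submodule ℝ E) = 2 := by omega
          have h4 : F ⊓ I = F := Submodule.eq_of_le_of_finrank_le inf_le_left (by omega)
          have h5 : F ⊓ I = I := Submodule.eq_of_le_of_finrank_le inf_le_right (by omega)
          exact hEq (h4.symm.trans h5)
        exact flag_complete D hinj h3 K hK (F ⊓ I) F h1 hf inf_le_left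
          (fun γ hγ v hv => ⟨hFi γ hγ v hv.1, hIi γ hγ v hv.2⟩) hFi

/-- the main theorem -/
theorem solvable_normal (D : AffData X Γ E dev hol) (hinj : Function.Injective dev)
    (h3 : finrank ℝ E = 3) (K N : Subgroup Γ) (hK : K.FiniteIndex)
    (hnor : CommensuratedSubgroups.Normalises hol K N)
    (hsol : Group.IsSolvable (N.map hol))
    (hne : ∃ a ∈ N, ∃ q : E, hol a q ≠ q) : IsHomeomorph dev := by
  by_cases htr : ∃ γ : Γ, ∃ d : E, d ≠ 0 ∧ ∀ q, hol γ q = q + d
  · obtain ⟨γ, d, hd, hγ⟩ := htr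
    exact trans_complete D hinj h3 γ d hd hγ
  push Not at htr
  obtain ⟨M, hM⟩ : ∃ M, M = N.map hol := ⟨_, rfl⟩
  rw [← hM] at hsol
  obtain ⟨B, hB⟩ : ∃ B : ℕ → Subgroup (E ≃ᵃ[ℝ] E), B = fun i =>
    (derivedSeries M i).map M.subtype := ⟨_, rfl⟩
  have hB0 : B 0 = M := by
    rw [hB]
    change (derivedSeries M 0).map M.subtype = M
    rw [derivedSeries_zero, ← MonoidHom.range_eq_map, Subgroup.range_subtype]
  have hBs : ∀ i, B (i + 1) = ⁅B i, B i⁆ := by
    intro i
    rw [hB]
    change (derivedSeries M (i + 1)).map M.subtype = ⁅_, _⁆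
    rw [derivedSeries_succ, Subgroup.map_commutator]
  have hBn : ∀ γ ∈ K, ∀ i, ∀ b ∈ B i, hol γ * b * (hol γ)⁻¹ ∈ B i := by
    intro γ hγ i
    induction i with
    | zero =>
      intro b hb
      rw [hB0, hM] at hb ⊢
      obtain ⟨a, ha, rfl⟩ := hb
      obtain ⟨c, hc, h1⟩ := hnor γ hγ a ha
      refine ⟨c, hc, ?_⟩
      rw [← map_inv, ← map_mul, ← map_mul]
      exact (AffineEquiv.ext fun q => (h1 q).symm)
    | succ i ih =>
      have h1 : (B (i + 1)).map (MulAut.conj (hol γ)).toMonoidHom ≤ B (i + 1) := by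
        rw [hBs, Subgroup.map_commutator]
        have h2 : (B i).map (MulAut.conj (hol γ)).toMonoidHom ≤ B i := by
          rintro _ ⟨b, hb, rfl⟩
          exact ih b hb
        exact Subgroup.commutator_mono h2 h2
      intro b hb
      exact h1 ⟨b, hb, rfl⟩
  have hBM : ∀ i, B i ≤ M := by
    intro i
    rw [hB]
    rintro _ ⟨b, _, rfl⟩
    exact b.2
  obtain ⟨n, hn⟩ := hsol.1
  have hex : ∃ n, B n = ⊥ := by
    refine ⟨n, ?_⟩
    rw [hB]
    change (derivedSeries M n).map M.subtype = ⊥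
    rw [hn, Subgroup.map_bot]
  classical
  have h1 := Nat.find_spec hex
  have h0 : Nat.find hex ≠ 0 := by
    intro h0
    rw [h0, hB0] at h1
    obtain ⟨a, ha, q, hq⟩ := hne
    apply hq
    have h2 : hol a ∈ M := by rw [hM]; exact ⟨a, ha, rfl⟩
    rw [h1, Subgroup.mem_bot] at h2
    rw [h2]
    rfl
  obtain ⟨j, hj⟩ := Nat.exists_eq_succ_of_ne_zero h0
  have hjne : B j ≠ ⊥ := Nat.find_min hex (m := j) (by omega)
  rw [hj, Nat.succ_eq_add_one, hBs] at h1
  have hcm : ∀ x ∈ B j, ∀ y ∈ B j, x * y = y * x := by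
    intro x hx y hy
    have h2 : ⁅x, y⁆ ∈ ⁅B j, B j⁆ := Subgroup.commutator_mem_commutator hx hy
    rw [h1, Subgroup.mem_bot, commutatorElement_eq_one_iff_mul_comm] at h2
    exact h2
  refine nt_complete D hinj h3 K ((B j).comap hol) hK ?_ ?_ ?_ ?_
  · intro a ha b hb q
    have h2 := hcm _ ha _ hb
    exact congrFun (congrArg (fun f : E ≃ᵃ[ℝ] E => (f : E → E)) h2) q
  · intro γ hγ a ha
    refine ⟨γ * a * γ⁻¹, ?_, fun q => rfl⟩
    rw [Subgroup.mem_comap, map_mul, map_mul, map_inv]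
    exact hBn γ hγ j _ ha
  · obtain ⟨b, hb, hb1⟩ : ∃ b ∈ B j, b ≠ 1 := by
      by_contra hcon
      push Not at hcon
      exact hjne (eq_bot_iff.2 fun b hb => Subgroup.mem_bot.2 (hcon b hb))
    obtain ⟨a, ha, hab⟩ : b ∈ N.map hol := by rw [← hM]; exact hBM j hb
    refine ⟨a, ?_, ?_⟩
    · rw [Subgroup.mem_comap, hab]
      exact hb
    · by_contra hcon
      push Not at hcon
      apply hb1
      rw [← hab]
      exact AffineEquiv.ext hcon
  · intro a _ d hd
    by_contra hd0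
    obtain ⟨q, hq⟩ := htr a d hd0
    exact hq (hd q)

end

end Pool.Agent.H817.MA
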