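import Pool.Agent.H817.MA.C22

/-!
The case of a normal abelian group of affine maps which fixes and moves by a line.
-/

set_option autoImplicit false
set_option linter.unusedSectionVars false

namespace Pool.Agent.H817.MA

open Pool.Agent.W689.Mk Set Filter Topology Module
open Pool.Agent.Results.MP_df2bd8_gt

/-- integral combinations of two numbers with irrational ratio take small values infinitely often -/
theorem infinite_small (ξ : ℝ) (hξ : Irrational ξ) (ε : ℝ) (hε : 0 < ε) :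
    {z : ℤ × ℤ | |(z.1 : ℝ) * ξ + z.2| < ε}.Infinite := by
  intro hfin
  have hne : ∀ z : ℤ × ℤ, z.1 ≠ 0 → |(z.1 : ℝ) * ξ + z.2| ≠ 0 := by
    intro z hz h
    rw [abs_eq_zero] at h
    have h1 : Irrational ((z.1 : ℝ) * ξ + z.2) := by
      have := (hξ.intCast_mul hz).add_intCast z.2
      exact this
    rw [h] at h1
    exact h1 ⟨0, by simp⟩
  obtain ⟨S, hS⟩ : ∃ S, S = {z : ℤ × ℤ | |(z.1 : ℝ) * ξ + z.2| < ε} ∩ {z | z.1 ≠ 0} := ⟨_, rfl⟩
  have hSf : S.Finite := by rw [hS]; exact hfin.inter_of_left _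
  have hδ : ∃ δ : ℝ, 0 < δ ∧ ∀ z ∈ S, δ ≤ |(z.1 : ℝ) * ξ + z.2| := by
    rcases S.eq_empty_or_nonempty with h | h
    · exact ⟨1, one_pos, fun z hz => by rw [h] at hz; exact absurd hz (notMem_empty z)⟩
    · obtain ⟨z0, hz0, hmin⟩ := Set.exists_min_image S (fun z => |(z.1 : ℝ) * ξ + z.2|) hSf h
      refine ⟨|(z0.1 : ℝ) * ξ + z0.2|, lt_of_le_of_ne (abs_nonneg _) ?_, hmin⟩
      rw [hS] at hz0
      exact (hne z0 hz0.2).symm
  obtain ⟨δ, hδ0, hδ⟩ := hδ
  obtain ⟨n, hn⟩ := exists_nat_one_div_lt (lt_min hδ0 hε)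
  obtain ⟨j, k, hk0, -, hk⟩ := Real.exists_int_int_abs_mul_sub_le ξ (n := n + 1) (Nat.succ_pos n)
  have h1 : |(k : ℝ) * ξ + ((-j : ℤ) : ℝ)| < min δ ε := by
    have e : (k : ℝ) * ξ + ((-j : ℤ) : ℝ) = k * ξ - j := by push_cast; ring
    rw [e]
    refine lt_of_le_of_lt (hk.trans ?_) hn
    apply one_div_le_one_div_of_le
    · positivity
    · push_cast
      linarith
  have h2 : ((k, -j) : ℤ × ℤ) ∈ S := by
    rw [hS]
    exact ⟨h1.trans_le (min_le_right _ _), hk0.ne'⟩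
  have h3 := hδ _ h2
  exact absurd (h1.trans_le (min_le_left _ _)) (not_lt.2 h3)

section
variable {X Γ E : Type} [TopologicalSpace X] [T2Space X] [SecondCountableTopology X]
  [ConnectedSpace X] [Group Γ] [MulAction Γ X]
  [NormedAddCommGroup E] [NormedSpace ℝ E] [FiniteDimensional ℝ E]
  {dev : X → E} {hol : Γ →* (E ≃ᵃ[ℝ] E)}

/-- powers of a shear -/
theorem shear_pow (a : Γ) (u : E) (g : E → ℝ) (hgu : ∀ q (s : ℝ), g (q + s • u) = g q)
    (ha : ∀ q, hol a q = q + g q • u) (n : ℤ) (q : E) :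
    hol (a ^ n) q = q + (n * g q) • u := by
  have hnat : ∀ k : ℕ, ∀ q, hol (a ^ k) q = q + ((k : ℝ) * g q) • u := by
    intro k
    induction k with
    | zero => intro q; rw [pow_zero, map_one, Nat.cast_zero, zero_mul, zero_smul, add_zero]; rfl
    | succ k ih =>
      intro q
      rw [pow_succ, map_mul]
      change hol (a ^ k) (hol a q) = _
      rw [ha, ih, hgu, Nat.cast_succ, add_mul, one_mul, add_smul]
      abel
  rcases Int.eq_nat_or_neg n with ⟨k, rfl | rfl⟩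
  · rw [zpow_natCast, hnat]
    simp
  · rw [zpow_neg, zpow_natCast]
    have h1 : hol (a ^ k) (q + (((-(k : ℤ) : ℤ) : ℝ) * g q) • u) = q := by
      rw [hnat, hgu]
      push_cast
      rw [add_assoc, ← add_smul]
      have : -(k : ℝ) * g q + k * g q = 0 := by ring
      rw [this, zero_smul, add_zero]
    have h2 := hol_inv_apply (hol := hol) (a ^ k) (q + (((-(k : ℤ) : ℤ) : ℝ) * g q) • u)
    rw [h1] at h2
    exact h2

/-- two independent commuting shears along a line contradict proper discontinuity -/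
theorem no_shears (D : AffData X Γ E dev hol) (hinj : Function.Injective dev) (u e1 e2 : E)
    (hu : u ≠ 0) (a1 a2 : Γ) (f1 f2 : E →ₗ[ℝ] ℝ) (f11 : f1 e1 = 1) (f12 : f1 e2 = 0)
    (f21 : f2 e1 = 0) (f22 : f2 e2 = 1) (f1u : f1 u = 0) (f2u : f2 u = 0) (c1 c2 : ℝ)
    (h1 : ∀ q, hol a1 q = q + (f1 q + c1) • u) (h2 : ∀ q, hol a2 q = q + (f2 q + c2) • u) :
    False := by
  have hopen : IsOpen (range dev) := (D.loc.isOpenEmbedding_of_injective hinj).isOpen_range
  obtain ⟨x0⟩ : Nonempty X := inferInstance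
  obtain ⟨r, hr, hball⟩ := Metric.isOpen_iff.1 hopen (dev x0) ⟨x0, rfl⟩
  obtain ⟨g1, hg1⟩ : ∃ g1 : E → ℝ, g1 = fun q => f1 q + c1 := ⟨_, rfl⟩
  obtain ⟨g2, hg2⟩ : ∃ g2 : E → ℝ, g2 = fun q => f2 q + c2 := ⟨_, rfl⟩
  have g1u : ∀ q (s : ℝ), g1 (q + s • u) = g1 q := by
    intro q s; rw [hg1]; simp [f1u]
  have g2u : ∀ q (s : ℝ), g2 (q + s • u) = g2 q := by
    intro q s; rw [hg2]; simp [f2u]
  have k1 : ∀ q, hol a1 q = q + g1 q • u := by rw [hg1]; exact h1
  have k2 : ∀ q, hol a2 q = q + g2 q • u := by rw [hg2]; exact h2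
  -- choose the point
  have hcont : Continuous fun st : ℝ × ℝ => dev x0 + st.1 • e1 + st.2 • e2 := by fun_prop
  have hnear : ∀ᶠ st : ℝ × ℝ in 𝓝 (0, 0), dev x0 + st.1 • e1 + st.2 • e2 ∈ Metric.ball (dev x0) r := by
    have : Tendsto (fun st : ℝ × ℝ => dev x0 + st.1 • e1 + st.2 • e2) (𝓝 (0, 0))
        (𝓝 (dev x0 + (0 : ℝ) • e1 + (0 : ℝ) • e2)) := hcont.tendsto (0, 0)
    rw [zero_smul, zero_smul, add_zero, add_zero] at this
    exact this.eventually (Metric.ball_mem_nhds _ hr)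
  obtain ⟨ρ, hρ, hρ'⟩ := Metric.eventually_nhds_iff.1 hnear
  have hpt : ∃ q ∈ range dev, g2 q ≠ 0 ∧ Irrational (g1 q / g2 q) := by
    -- choose t
    obtain ⟨t, ht, htne⟩ : ∃ t : ℝ, |t| < ρ ∧ g2 (dev x0) + t ≠ 0 := by
      by_cases h0 : g2 (dev x0) = 0
      · exact ⟨ρ / 2, by rw [abs_of_pos (by linarith)]; linarith, by rw [h0]; linarith⟩
      · exact ⟨0, by rw [abs_zero]; exact hρ, by rwa [add_zero]⟩
    obtain ⟨y, hy⟩ : ∃ y, y = g2 (dev x0) + t := ⟨_, rfl⟩
    rw [← hy] at htne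
    obtain ⟨η, hη⟩ : ∃ η, η = ρ / |y| := ⟨_, rfl⟩
    have hy0 : 0 < |y| := abs_pos.2 htne
    have hη0 : 0 < η := by rw [hη]; exact div_pos hρ hy0
    obtain ⟨ξ, hξ, hξ1, hξ2⟩ := exists_irrational_btwn
      (show g1 (dev x0) / y < g1 (dev x0) / y + η by linarith)
    obtain ⟨σ, hσ⟩ : ∃ σ, σ = ξ * y - g1 (dev x0) := ⟨_, rfl⟩
    have hσρ : |σ| < ρ := by
      have e : σ = (ξ - g1 (dev x0) / y) * y := by rw [hσ]; field_simp
      rw [e, abs_mul]
      have h4 : |ξ - g1 (dev x0) / y| < η := by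
        rw [abs_of_pos (by linarith)]
        linarith
      have h5 : |ξ - g1 (dev x0) / y| * |y| < η * |y| := mul_lt_mul_of_pos_right h4 hy0
      have h6 : η * |y| = ρ := by rw [hη]; field_simp
      linarith
    have hd : dist ((σ, t) : ℝ × ℝ) (0, 0) < ρ := by
      rw [Prod.dist_eq, max_lt_iff]
      simp only [Real.dist_eq, sub_zero]
      exact ⟨hσρ, ht⟩
    refine ⟨dev x0 + σ • e1 + t • e2, hball (hρ' hd), ?_, ?_⟩
    · have : g2 (dev x0 + σ • e1 + t • e2) = y := by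
        rw [hy, hg2]
        simp only [map_add, map_smul, f21, f22, smul_eq_mul]
        ring
      rw [this]
      exact htne
    · have e2' : g2 (dev x0 + σ • e1 + t • e2) = y := by
        rw [hy, hg2]
        simp only [map_add, map_smul, f21, f22, smul_eq_mul]
        ring
      have e1' : g1 (dev x0 + σ • e1 + t • e2) = ξ * y := by
        have : g1 (dev x0 + σ • e1 + t • e2) = g1 (dev x0) + σ := by
          rw [hg1]
          simp only [map_add, map_smul, f11, f12, smul_eq_mul]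
          ring
        rw [this, hσ]
        ring
      rw [e1', e2', mul_div_assoc, div_self htne, mul_one]
      exact hξ
  obtain ⟨_, ⟨x, rfl⟩, hg20, hirr⟩ := hpt
  obtain ⟨ε, hε, hfin⟩ := finite_near D hinj x
  obtain ⟨q, hq⟩ : ∃ q, q = dev x := ⟨_, rfl⟩
  rw [← hq] at hg20 hirr hfin
  have hact : ∀ (m n : ℤ) (p : E), hol (a1 ^ m * a2 ^ n) p = p + (m * g1 p + n * g2 p) • u := by
    intro m n p
    rw [map_mul]
    change hol (a1 ^ m) (hol (a2 ^ n) p) = _
    rw [shear_pow a2 u g2 g2u k2, shear_pow a1 u g1 g1u k1, g1u, add_assoc, ← add_smul]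
    congr 2
    ring
  have hpos : 0 < |g2 q| * ‖u‖ := mul_pos (abs_pos.2 hg20) (norm_pos_iff.2 hu)
  have hinf := infinite_small (g1 q / g2 q) hirr (ε / (|g2 q| * ‖u‖)) (div_pos hε hpos)
  apply hinf
  refine Set.Finite.of_finite_image (f := fun z : ℤ × ℤ => a1 ^ z.1 * a2 ^ z.2) ?_ ?_
  · refine hfin.subset ?_
    rintro _ ⟨⟨m, n⟩, hz, rfl⟩
    change ‖hol (a1 ^ m * a2 ^ n) q - q‖ < ε
    rw [hact, add_sub_cancel_left, norm_smul, Real.norm_eq_abs]
    have hz' : |(m : ℝ) * (g1 q / g2 q) + n| < ε / (|g2 q| * ‖u‖) := hz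
    have e : (m : ℝ) * g1 q + n * g2 q = (m * (g1 q / g2 q) + n) * g2 q := by
      field_simp
    rw [e, abs_mul, mul_assoc]
    rw [lt_div_iff₀ hpos] at hz'
    exact hz'
  · rintro ⟨m, n⟩ _ ⟨m', n'⟩ _ heq
    have heq' : a1 ^ m * a2 ^ n = a1 ^ m' * a2 ^ n' := heq
    have h5 : ∀ p, (m : ℝ) * g1 p + n * g2 p = m' * g1 p + n' * g2 p := by
      intro p
      have e1 := hact m n p
      have e2 := hact m' n' p
      rw [heq', e2] at e1
      exact (smul_left_injective ℝ hu (add_left_cancel e1)).symm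
    have i0 := h5 0
    have i1 := h5 e1
    have i2 := h5 e2
    rw [hg1, hg2] at i0 i1 i2
    simp only [map_zero, f11, f12, f21, f22] at i0 i1 i2
    have j1 : (m : ℝ) = m' := by linarith
    have j2 : (n : ℝ) = n' := by linarith
    refine Prod.ext ?_ ?_
    · exact_mod_cast j1
    · exact_mod_cast j2

end

end Pool.Agent.H817.MA
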