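import Pool.Agent.H817.MA.C11

/-!
The case of a normal abelian group of affine maps which fixes and moves by a line.
-/

set_option autoImplicit false
set_option linter.unusedSectionVars false

namespace Pool.Agent.H817.MA

open Pool.Agent.W689.Mk Set Filter Topology Module
open Pool.Agent.Results.MP_df2bd8_gt

theorem exists_dual_pair {E : Type} [NormedAddCommGroup E] [NormedSpace ℝ E]
    [FiniteDimensional ℝ E] {Γ : Type} (A : Set Γ) (φ : Γ → E →ₗ[ℝ] ℝ) (u : E)
    (h3 : finrank ℝ E = 3) (hfix : ∀ v, (∀ a ∈ A, φ a v = 0) → ∃ s : ℝ, v = s • u) :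
    ∃ a1 ∈ A, ∃ a2 ∈ A, ∃ e1 e2 : E, φ a1 e1 = 1 ∧ φ a1 e2 = 0 ∧ φ a2 e1 = 0 ∧ φ a2 e2 = 1 := by
  have hsp : ∀ V : Submodule ℝ E, 2 ≤ finrank ℝ V → ∃ v ∈ V, ¬ ∃ s : ℝ, v = s • u := by
    intro V hV
    by_contra hcon
    push Not at hcon
    have h1 : V ≤ Submodule.span ℝ {u} := by
      intro v hv
      obtain ⟨s, hs⟩ := hcon v hv
      rw [hs]
      exact Submodule.smul_mem _ _ (Submodule.mem_span_singleton_self u)
    have h2 := Submodule.finrank_mono h1
    have h4 := finrank_span_le_card (R := ℝ) ({u} : Set E)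
    simp at h4
    omega
  obtain ⟨v1, -, hv1⟩ := hsp ⊤ (by rw [finrank_top, h3]; norm_num)
  obtain ⟨a1, ha1, hav1⟩ : ∃ a ∈ A, φ a v1 ≠ 0 := by
    by_contra hcon
    push Not at hcon
    exact hv1 (hfix v1 hcon)
  have hker : 2 ≤ finrank ℝ (LinearMap.ker (φ a1)) := by
    have h1 := LinearMap.finrank_range_add_finrank_ker (φ a1)
    have h2 := Submodule.finrank_le (LinearMap.range (φ a1))
    rw [finrank_self] at h2
    omega
  obtain ⟨v2, hv2k, hv2⟩ := hsp _ hker
  rw [LinearMap.mem_ker] at hv2k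
  obtain ⟨a2, ha2, hav2⟩ : ∃ a ∈ A, φ a v2 ≠ 0 := by
    by_contra hcon
    push Not at hcon
    exact hv2 (hfix v2 hcon)
  obtain ⟨e2, he2⟩ : ∃ e2, e2 = (φ a2 v2)⁻¹ • v2 := ⟨_, rfl⟩
  obtain ⟨w, hw⟩ : ∃ w, w = (φ a1 v1)⁻¹ • v1 := ⟨_, rfl⟩
  have h12 : φ a1 e2 = 0 := by rw [he2, map_smul, hv2k, smul_zero]
  have h22 : φ a2 e2 = 1 := by rw [he2, map_smul, smul_eq_mul, inv_mul_cancel₀ hav2]
  have h1w : φ a1 w = 1 := by rw [hw, map_smul, smul_eq_mul, inv_mul_cancel₀ hav1]
  refine ⟨a1, ha1, a2, ha2, w - φ a2 w • e2, e2, ?_, h12, ?_, h22⟩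
  · rw [map_sub, map_smul, h12, smul_zero, sub_zero, h1w]
  · rw [map_sub, map_smul, h22, smul_eq_mul, mul_one, sub_self]

section
variable {X Γ E : Type} [TopologicalSpace X] [T2Space X] [SecondCountableTopology X]
  [ConnectedSpace X] [Group Γ] [MulAction Γ X]
  [NormedAddCommGroup E] [NormedSpace ℝ E] [FiniteDimensional ℝ E]
  {dev : X → E} {hol : Γ →* (E ≃ᵃ[ℝ] E)}

theorem case11 (D : AffData X Γ E dev hol) (hinj : Function.Injective dev)
    (h3 : finrank ℝ E = 3) (K A : Subgroup Γ) (hK : K.FiniteIndex)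
    (hcomm : CommensuratedSubgroups.Commuting hol A)
    (hnor : CommensuratedSubgroups.Normalises hol K A)
    (u : E) (hu : u ≠ 0)
    (hKu : ∀ γ ∈ K, ∃ c : ℝ, (hol γ).linear u = c • u)
    (hFu : ∀ a ∈ A, (hol a).linear u = u)
    (hF : ∀ v, (∀ a ∈ A, (hol a).linear v = v) → ∃ s : ℝ, v = s • u)
    (hI : ∀ a ∈ A, ∀ v, ∃ s : ℝ, (hol a).linear v - v = s • u) :
    IsHomeomorph dev := by
  obtain ⟨g, hg⟩ : ∃ g : E →ₗ[ℝ] ℝ, g u = 1 := by
    obtain ⟨g, hg⟩ := SeparatingDual.exists_eq_one (R := ℝ) hu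
    exact ⟨g, hg⟩
  obtain ⟨φ, hφ⟩ : ∃ φ : Γ → E →ₗ[ℝ] ℝ, φ = fun a =>
    g ∘ₗ (((hol a).linear : E →ₗ[ℝ] E) - LinearMap.id) := ⟨_, rfl⟩
  have hφv : ∀ a v, φ a v = g ((hol a).linear v - v) := fun a v => by rw [hφ]; rfl
  have hL : ∀ a ∈ A, ∀ v, (hol a).linear v = v + φ a v • u := by
    intro a ha v
    obtain ⟨s, hs⟩ := hI a ha v
    have h1 : φ a v = s := by rw [hφv, hs, map_smul, hg, smul_eq_mul, mul_one]
    rw [h1, ← hs]
    abel
  have hφ0 : ∀ a ∈ A, ∀ v, φ a v = 0 → (hol a).linear v = v := by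
    intro a ha v hv
    rw [hL a ha, hv, zero_smul, add_zero]
  have hφu : ∀ a ∈ A, φ a u = 0 := by
    intro a ha
    rw [hφv, hFu a ha, sub_self, map_zero]
  obtain ⟨a1, ha1, a2, ha2, e1, e2, f11, f12, f21, f22⟩ := exists_dual_pair (A : Set Γ) φ u h3
    (fun v hv => hF v fun a ha => hφ0 a ha v (hv a ha))
  have hframe : Frame u e1 e2 (φ a1) (φ a2) :=
    frame_of_dual h3 hu f11 f12 f21 f22 (hφu a1 ha1) (hφu a2 ha2)
  have haff : ∀ a ∈ A, ∀ q, hol a q = q + φ a q • u + hol a 0 := by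
    intro a ha q
    have h1 := hol_add (hol := hol) a 0 q
    rw [zero_add] at h1
    rw [h1]
    unfold lin
    rw [hL a ha]
    abel
  have hinju : ∀ s t : ℝ, s • u = t • u → s = t := fun s t h => smul_left_injective ℝ hu h
  have hsymm : ∀ a ∈ A, ∀ b ∈ A, φ a (hol b 0) = φ b (hol a 0) := by
    intro a ha b hb
    have h1 := hcomm a ha b hb 0
    rw [haff a ha (hol b 0), haff b hb (hol a 0)] at h1
    apply hinju
    have h2 : hol b 0 + φ a (hol b 0) • u + hol a 0 - (hol a 0 + hol b 0) =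
      hol a 0 + φ b (hol a 0) • u + hol b 0 - (hol a 0 + hol b 0) := by rw [h1]
    have e1 : hol b 0 + φ a (hol b 0) • u + hol a 0 - (hol a 0 + hol b 0) = φ a (hol b 0) • u := by
      abel
    have e2 : hol a 0 + φ b (hol a 0) • u + hol b 0 - (hol a 0 + hol b 0) = φ b (hol a 0) • u := by
      abel
    rw [e1, e2] at h2
    exact h2
  obtain ⟨T11, hT11⟩ : ∃ t, t = φ a1 (hol a1 0) := ⟨_, rfl⟩
  obtain ⟨T12, hT12⟩ : ∃ t, t = φ a1 (hol a2 0) := ⟨_, rfl⟩
  obtain ⟨T22, hT22⟩ : ∃ t, t = φ a2 (hol a2 0) := ⟨_, rfl⟩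
  have hT21 : T12 = φ a2 (hol a1 0) := by rw [hT12]; exact hsymm a1 ha1 a2 ha2
  by_cases hT : T11 = 0 ∧ T12 = 0 ∧ T22 = 0
  · exfalso
    obtain ⟨z1, z2, z3⟩ := hT
    obtain ⟨s1, hs1⟩ := hframe.ker (hol a1 0) (by rw [← hT11, z1]) (by rw [← hT21, z2])
    obtain ⟨s2, hs2⟩ := hframe.ker (hol a2 0) (by rw [← hT12, z2]) (by rw [← hT22, z3])
    refine no_shears D hinj u e1 e2 hu a1 a2 (φ a1) (φ a2) f11 f12 f21 f22 (hφu a1 ha1)
      (hφu a2 ha2) s1 s2 ?_ ?_
    · intro q
      rw [haff a1 ha1, hs1, add_smul, add_assoc]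
    · intro q
      rw [haff a2 ha2, hs2, add_smul, add_assoc]
  refine SolvableGroups.result E X Γ dev hol D hinj K hK ?_
  refine solvable_of_normalises hframe _ ?_ !![T12, -T11; T22, -T12] ?_ ?_
  · rintro _ ⟨γ, hγ, rfl⟩
    exact hKu γ hγ
  · rintro ⟨h1, h2, h4⟩
    simp at h1 h2 h4
    exact hT ⟨h1, by linarith, h2⟩
  · rintro _ ⟨γ, hγ, rfl⟩
    obtain ⟨χ, hχ⟩ := hKu γ hγ
    have hχ0 : χ ≠ 0 := by
      intro h0
      rw [h0, zero_smul] at hχ
      exact hu ((LinearEquiv.map_eq_zero_iff (hol γ).linear).1 hχ)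
    -- the conjugates
    have hconj : ∀ a ∈ A, ∃ b ∈ A, (∀ v, φ b ((hol γ).linear v) = χ * φ a v) ∧
        ∀ f : E →ₗ[ℝ] ℝ, f u = 0 → f (hol b 0) = f ((hol γ).linear (hol a 0)) := by
      intro a ha
      obtain ⟨b, hb, h1⟩ := hnor γ hγ a ha
      refine ⟨b, hb, ?_, ?_⟩
      · intro v
        -- hol b (hol γ q) = hol γ (hol a q)
        have h2 : ∀ q, hol b (hol γ q) = hol γ (hol a q) := by
          intro q
          rw [← h1, map_mul, map_mul]
          change hol γ (hol a (hol γ⁻¹ (hol γ q))) = _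
          rw [hol_inv_apply]
        have h4 := h2 v
        have h5 := h2 0
        have h6 : hol γ v = hol γ 0 + (hol γ).linear v := by
          have := hol_add (hol := hol) γ 0 v
          rw [zero_add] at this
          exact this
        have h7 : hol a v = hol a 0 + (hol a).linear v := by
          have := hol_add (hol := hol) a 0 v
          rw [zero_add] at this
          exact this
        have h8 : (hol b).linear ((hol γ).linear v) = (hol γ).linear ((hol a).linear v) := by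
          have e1 := hol_add (hol := hol) b (hol γ 0) ((hol γ).linear v)
          have e2 := hol_add (hol := hol) γ (hol a 0) ((hol a).linear v)
          rw [← h6] at e1
          rw [← h7] at e2
          unfold lin at e1 e2
          rw [e1, e2, h5] at h4
          exact add_left_cancel h4
        rw [hL b hb, hL a ha, map_add, map_smul, hχ, smul_smul] at h8
        have h9 := hinju _ _ (add_left_cancel h8)
        rw [h9, mul_comm]
      · intro f hf
        have h2 := h1 0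
        rw [← h2, map_mul, map_mul]
        change f (hol γ (hol a (hol γ⁻¹ 0))) = _
        rw [haff a ha, add_assoc, hol_add, hol_apply_inv, zero_add]
        unfold lin
        rw [map_add, map_smul, hχ, map_add, map_smul, map_smul, hf, smul_zero, smul_zero, zero_add]
    obtain ⟨b1, hb1, p1, q1⟩ := hconj a1 ha1
    obtain ⟨b2, hb2, p2, q2⟩ := hconj a2 ha2
    obtain ⟨M, hM⟩ : ∃ M, M = qm e1 e2 (φ a1) (φ a2)
      ((AffineEquiv.linearHom.comp hol) γ) := ⟨_, rfl⟩
    rw [← hM]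
    obtain ⟨a, ha⟩ : ∃ a, a = φ a1 ((hol γ).linear e1) := ⟨_, rfl⟩
    obtain ⟨b, hb⟩ : ∃ a, a = φ a1 ((hol γ).linear e2) := ⟨_, rfl⟩
    obtain ⟨c, hc⟩ : ∃ a, a = φ a2 ((hol γ).linear e1) := ⟨_, rfl⟩
    obtain ⟨d, hd⟩ : ∃ a, a = φ a2 ((hol γ).linear e2) := ⟨_, rfl⟩
    have hMe : M = !![a, b; c, d] := by rw [hM, ha, hb, hc, hd]; rfl
    -- expansion of functionals vanishing on u
    have hexp : ∀ f : E →ₗ[ℝ] ℝ, f u = 0 → ∀ v, f v = f e1 * φ a1 v + f e2 * φ a2 v := by
      intro f hf v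
      obtain ⟨s, hs⟩ := hframe.decomp v
      conv_lhs => rw [hs]
      rw [map_add, map_add, map_smul, map_smul, map_smul, hf]
      simp only [smul_eq_mul]
      ring
    have hev := fun v => hframe.eval ((hol γ).linear : E →ₗ[ℝ] E) hχ v
    simp only [LinearEquiv.coe_coe] at hev
    obtain ⟨N11, hN11⟩ : ∃ t, t = φ b1 e1 := ⟨_, rfl⟩
    obtain ⟨N12, hN12⟩ : ∃ t, t = φ b1 e2 := ⟨_, rfl⟩
    obtain ⟨N21, hN21⟩ : ∃ t, t = φ b2 e1 := ⟨_, rfl⟩
    obtain ⟨N22, hN22⟩ : ∃ t, t = φ b2 e2 := ⟨_, rfl⟩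
    have n1 : ∀ v, φ b1 v = N11 * φ a1 v + N12 * φ a2 v := by
      intro v; rw [hN11, hN12]; exact hexp (φ b1) (hφu b1 hb1) v
    have n2 : ∀ v, φ b2 v = N21 * φ a1 v + N22 * φ a2 v := by
      intro v; rw [hN21, hN22]; exact hexp (φ b2) (hφu b2 hb2) v
    -- N M = χ
    have r11 : N11 * a + N12 * c = χ := by
      have := p1 e1
      rw [n1, f11, ← ha, ← hc, mul_one] at this
      exact this
    have r12 : N11 * b + N12 * d = 0 := by
      have := p1 e2
      rw [n1, f12, ← hb, ← hd, mul_zero] at this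
      exact this
    have r21 : N21 * a + N22 * c = 0 := by
      have := p2 e1
      rw [n2, f21, ← ha, ← hc, mul_zero] at this
      exact this
    have r22 : N21 * b + N22 * d = χ := by
      have := p2 e2
      rw [n2, f22, ← hb, ← hd, mul_one] at this
      exact this
    -- M T = T Nᵀ
    have s11 : a * T11 + b * T12 = N11 * T11 + N12 * T12 := by
      have h1 := q1 (φ a1) (hφu a1 ha1)
      rw [hsymm a1 ha1 b1 hb1, n1, (hev _).1, ← ha, ← hb, ← hT11, ← hT21] at h1
      linarith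
    have s12 : a * T12 + b * T22 = N21 * T11 + N22 * T12 := by
      have h1 := q2 (φ a1) (hφu a1 ha1)
      rw [hsymm a1 ha1 b2 hb2, n2, (hev _).1, ← ha, ← hb, ← hT11, ← hT21, ← hT12, ← hT22] at h1
      linarith
    have s21 : c * T11 + d * T12 = N11 * T12 + N12 * T22 := by
      have h1 := q1 (φ a2) (hφu a2 ha2)
      rw [hsymm a2 ha2 b1 hb1, n1, (hev _).2, ← hc, ← hd, ← hT11, ← hT21, ← hT12, ← hT22] at h1
      linarith
    have s22 : c * T12 + d * T22 = N21 * T12 + N22 * T22 := by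
      have h1 := q2 (φ a2) (hφu a2 ha2)
      rw [hsymm a2 ha2 b2 hb2, n2, (hev _).2, ← hc, ← hd, ← hT12, ← hT22] at h1
      linarith
    obtain ⟨Δ, hΔ⟩ : ∃ Δ, Δ = a * d - b * c := ⟨_, rfl⟩
    have t11 : Δ * N11 = χ * d := by rw [hΔ]; linear_combination d * r11 - c * r12
    have t12 : Δ * N12 = -(χ * b) := by rw [hΔ]; linear_combination a * r12 - b * r11
    have t21 : Δ * N21 = -(χ * c) := by rw [hΔ]; linear_combination d * r21 - c * r22
    have t22 : Δ * N22 = χ * a := by rw [hΔ]; linear_combination a * r22 - b * r21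
    by_cases hΔ0 : Δ = 0
    · rw [hΔ0, zero_mul] at t11 t12 t21 t22
      have ha0 : a = 0 := by
        rcases mul_eq_zero.1 t22.symm with h | h
        · exact absurd h hχ0
        · exact h
      have hd0 : d = 0 := by
        rcases mul_eq_zero.1 t11.symm with h | h
        · exact absurd h hχ0
        · exact h
      have hb0 : b = 0 := by
        have : χ * b = 0 := by linarith
        rcases mul_eq_zero.1 this with h | h
        · exact absurd h hχ0
        · exact h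
      have hc0 : c = 0 := by
        have : χ * c = 0 := by linarith
        rcases mul_eq_zero.1 this with h | h
        · exact absurd h hχ0
        · exact h
      have hM0 : M = 0 := by
        rw [hMe, ha0, hb0, hc0, hd0]
        ext i j
        fin_cases i <;> fin_cases j <;> rfl
      exact ⟨0, by rw [hM0, zero_mul, zero_smul]⟩
    · refine ⟨χ / Δ, ?_⟩
      rw [hMe, Matrix.mul_fin_two, Matrix.mul_fin_two, Matrix.smul_of]
      have u1 : a * T12 + b * T22 = χ / Δ * (T12 * a + -T11 * c) := by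
        rw [div_mul_eq_mul_div, eq_div_iff hΔ0]
        linear_combination Δ * s12 + T11 * t21 + T12 * t22
      have u2 : a * -T11 + b * -T12 = χ / Δ * (T12 * b + -T11 * d) := by
        rw [div_mul_eq_mul_div, eq_div_iff hΔ0]
        linear_combination (-Δ) * s11 - T11 * t11 - T12 * t12
      have u3 : c * T12 + d * T22 = χ / Δ * (T22 * a + -T12 * c) := by
        rw [div_mul_eq_mul_div, eq_div_iff hΔ0]
        linear_combination Δ * s22 + T12 * t21 + T22 * t22
      have u4 : c * -T11 + d * -T12 = χ / Δ * (T22 * b + -T12 * d) := by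
        rw [div_mul_eq_mul_div, eq_div_iff hΔ0]
        linear_combination (-Δ) * s21 - T12 * t11 - T22 * t12
      ext i j
      fin_cases i <;> fin_cases j
      · simpa using u1
      · simpa using u2
      · simpa using u3
      · simpa using u4

end

end Pool.Agent.H817.MA
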