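import Pool.Agent.H817.MA.Flag
import Pool.Graph.R_pool_sql_team_seeded_64922ed1.Results.MP_df2bd8_gt.CommensuratedSubgroups

/-!
The case of a normal abelian group of affine maps which fixes and moves by a plane.
-/

set_option autoImplicit false
set_option linter.unusedSectionVars false

namespace Pool.Agent.H817.MA

open Pool.Agent.W689.Mk Set Filter Topology Module
open Pool.Agent.Results.MP_df2bd8_gt

section
variable {X Γ E : Type} [TopologicalSpace X] [T2Space X] [SecondCountableTopology X]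
  [ConnectedSpace X] [Group Γ] [MulAction Γ X]
  [NormedAddCommGroup E] [NormedSpace ℝ E] [FiniteDimensional ℝ E]
  {dev : X → E} {hol : Γ →* (E ≃ᵃ[ℝ] E)}

omit [FiniteDimensional ℝ E] in
theorem lin_one (w : E) : (hol 1).linear w = w := by
  rw [map_one]
  rfl

/-- an element of finite order at a point with a rank one nilpotent linear part is trivial -/
theorem fix_trivial (D : AffData X Γ E dev hol) (hinj : Function.Injective dev) (x : X)
    (c : Γ) (hc : hol c (dev x) = dev x) (φ : E →ₗ[ℝ] ℝ) (v : E) (hφv : φ v = 0) {w0 : E}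
    (hw0 : φ w0 = 1) (hL : ∀ w, (hol c).linear w = w + φ w • v) : v = 0 := by
  obtain ⟨ε, hε, hfin⟩ := finite_near D hinj x
  have hpow : ∀ k : ℕ, hol (c ^ k) (dev x) = dev x := by
    intro k
    induction k with
    | zero => rw [pow_zero, map_one]; rfl
    | succ k ih =>
      rw [pow_succ, map_mul]
      change hol (c ^ k) (hol c (dev x)) = _
      rw [hc, ih]
  have hlin : ∀ k : ℕ, ∀ w, (hol (c ^ k)).linear w = w + (k : ℝ) • (φ w • v) := by
    intro k
    induction k with
    | zero => intro w; rw [pow_zero, lin_one]; simp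
    | succ k ih =>
      intro w
      have h1 : (hol (c ^ (k + 1))).linear w = (hol (c ^ k)).linear ((hol c).linear w) := by
        rw [pow_succ]
        exact lin_mul (hol := hol) _ _ w
      rw [h1, hL, ih, map_add, map_smul, hφv, smul_zero, add_zero, Nat.cast_succ, add_smul,
        one_smul]
      abel
  have hmem : ∀ k : ℕ, c ^ k ∈ {γ : Γ | ‖hol γ (dev x) - dev x‖ < ε} := by
    intro k
    change ‖hol (c ^ k) (dev x) - dev x‖ < ε
    rw [hpow, sub_self, norm_zero]
    exact hε
  have hninj : ¬ Function.Injective fun k : ℕ => c ^ k := by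
    intro hi
    exact Set.infinite_of_injective_forall_mem hi hmem hfin
  rw [Function.Injective] at hninj
  push Not at hninj
  obtain ⟨k, l, hkl, hne⟩ := hninj
  have h1 := hlin k w0
  have h2 := hlin l w0
  have hkl' : c ^ k = c ^ l := hkl
  rw [hkl', h2, hw0, one_smul] at h1
  have h3 := add_left_cancel h1
  have h4 : ((l : ℝ) - k) • v = 0 := by rw [sub_smul, h3, sub_self]
  rcases smul_eq_zero.1 h4 with h5 | h5
  · exfalso
    apply hne
    have : (l : ℝ) = k := by linarith
    exact_mod_cast this.symm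
  · exact h5

theorem case22 (D : AffData X Γ E dev hol) (hinj : Function.Injective dev)
    (h3 : finrank ℝ E = 3) (K A : Subgroup Γ) (hK : K.FiniteIndex)
    (hcomm : CommensuratedSubgroups.Commuting hol A)
    (hnor : CommensuratedSubgroups.Normalises hol K A)
    (P : Submodule ℝ E) (hP : finrank ℝ P = 2)
    (hPi : ∀ γ ∈ K, ∀ v ∈ P, (hol γ).linear v ∈ P)
    (hF : ∀ a ∈ A, ∀ v ∈ P, (hol a).linear v = v)
    (hI : ∀ a ∈ A, ∀ v, (hol a).linear v - v ∈ P)
    (hIs : P ≤ Submodule.span ℝ {w | ∃ a ∈ A, ∃ v, w = (hol a).linear v - v}) :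
    IsHomeomorph dev := by
  obtain ⟨φ, hφ0, hφ⟩ := exists_functional P (by rw [hP, h3])
  obtain ⟨w0, hw0⟩ : ∃ v, φ v = 1 := by
    obtain ⟨v, hv⟩ := LinearMap.surjective_of_ne_zero hφ0 1
    exact ⟨v, hv⟩
  have hφP : ∀ v, φ v = 0 ↔ v ∈ P := fun v => by rw [← hφ, LinearMap.mem_ker]
  obtain ⟨u, hu⟩ : ∃ u : Γ → E, u = fun a => (hol a).linear w0 - w0 := ⟨_, rfl⟩
  have hua : ∀ a, u a = (hol a).linear w0 - w0 := fun a => by rw [hu]
  have huP : ∀ a ∈ A, u a ∈ P := fun a ha => by rw [hua]; exact hI a ha w0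
  have hL : ∀ a ∈ A, ∀ v, (hol a).linear v = v + φ v • u a := by
    intro a ha v
    have h1 : v - φ v • w0 ∈ P := by
      rw [← hφP, map_sub, map_smul, hw0, smul_eq_mul, mul_one, sub_self]
    have h2 := hF a ha _ h1
    rw [map_sub, map_smul] at h2
    rw [hua, smul_sub]
    rw [sub_eq_iff_eq_add.1 h2]
    abel
  have haff : ∀ a ∈ A, ∀ q, hol a q = q + φ q • u a + hol a 0 := by
    intro a ha q
    have h1 := hol_add (hol := hol) a 0 q
    rw [zero_add] at h1
    rw [h1]
    unfold lin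
    rw [hL a ha]
    abel
  have hspanu : P ≤ Submodule.span ℝ (u '' A) := by
    refine hIs.trans (Submodule.span_le.2 ?_)
    rintro w ⟨a, ha, v, rfl⟩
    rw [hL a ha, add_sub_cancel_left]
    exact Submodule.smul_mem _ _ (Submodule.subset_span ⟨a, ha, rfl⟩)
  -- the translation parts are in P
  have hsymm : ∀ a ∈ A, ∀ b ∈ A, φ (hol b 0) • u a = φ (hol a 0) • u b := by
    intro a ha b hb
    have h1 := hcomm a ha b hb 0
    rw [haff a ha (hol b 0), haff b hb (hol a 0)] at h1
    have h2 : hol b 0 + φ (hol b 0) • u a + hol a 0 - (hol a 0 + hol b 0) =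
      hol a 0 + φ (hol a 0) • u b + hol b 0 - (hol a 0 + hol b 0) := by rw [h1]
    have e1 : hol b 0 + φ (hol b 0) • u a + hol a 0 - (hol a 0 + hol b 0) = φ (hol b 0) • u a := by
      abel
    have e2 : hol a 0 + φ (hol a 0) • u b + hol b 0 - (hol a 0 + hol b 0) = φ (hol a 0) • u b := by
      abel
    rw [e1, e2] at h2
    exact h2
  have ht0 : ∀ a ∈ A, φ (hol a 0) = 0 := by
    intro a ha
    by_contra hne
    -- all u b are multiples of u a
    have h1 : Submodule.span ℝ (u '' A) ≤ Submodule.span ℝ {u a} := by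
      rw [Submodule.span_le]
      rintro _ ⟨b, hb, rfl⟩
      have h2 := hsymm a ha b hb
      rw [SetLike.mem_coe, Submodule.mem_span_singleton]
      refine ⟨(φ (hol a 0))⁻¹ * φ (hol b 0), ?_⟩
      rw [mul_smul, h2, smul_smul, inv_mul_cancel₀ hne, one_smul]
    have h2 := Submodule.finrank_mono (hspanu.trans h1)
    have h4 := finrank_span_le_card (R := ℝ) ({u a} : Set E)
    simp at h4
    omega
  obtain ⟨x⟩ : Nonempty X := inferInstance
  obtain ⟨ε, hε, hfin⟩ := finite_near D hinj x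
  obtain ⟨p, hp⟩ : ∃ p, p = dev x := ⟨_, rfl⟩
  -- the relation
  let R : AddSubgroup (E × E) :=
    { carrier := {y | ∃ c ∈ A, hol c p = p + y.1 ∧ u c = y.2}
      zero_mem' := ⟨1, A.one_mem, by rw [map_one, Prod.fst_zero, add_zero]; rfl, by
        rw [hua, lin_one, sub_self]; rfl⟩
      add_mem' := by
        rintro y z ⟨c, hc, h1, h2⟩ ⟨d, hd, h4, h5⟩
        refine ⟨c * d, A.mul_mem hc hd, ?_, ?_⟩
        · rw [map_mul]
          change hol c (hol d p) = _
          have hzP : z.1 ∈ P := by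
            have : z.1 = φ p • u d + hol d 0 := by
              rw [haff d hd p] at h4
              have := add_left_cancel (h4.symm.trans (add_assoc p _ _))
              exact this
            rw [this]
            exact P.add_mem (P.smul_mem _ (huP d hd)) ((hφP _).1 (ht0 d hd))
          rw [h4, hol_add, h1]
          unfold lin
          rw [hF c hc _ hzP, Prod.fst_add]
          abel
        · have h6 : (hol (c * d)).linear w0 = (hol c).linear ((hol d).linear w0) :=
            lin_mul (hol := hol) _ _ w0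
          rw [hua, h6, hL d hd, map_add, map_smul, hF c hc _ (huP d hd), hL c hc, hw0, one_smul,
            one_smul, h2, h5, Prod.snd_add]
          abel
      neg_mem' := by
        rintro y ⟨c, hc, h1, h2⟩
        refine ⟨c⁻¹, A.inv_mem hc, ?_, ?_⟩
        · have hyP : y.1 ∈ P := by
            have : y.1 = φ p • u c + hol c 0 := by
              rw [haff c hc p] at h1
              exact add_left_cancel (h1.symm.trans (add_assoc p _ _))
            rw [this]
            exact P.add_mem (P.smul_mem _ (huP c hc)) ((hφP _).1 (ht0 c hc))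
          have h3 := hol_inv_apply (hol := hol) c p
          rw [h1, hol_add] at h3
          unfold lin at h3
          rw [hF c⁻¹ (A.inv_mem hc) _ hyP] at h3
          rw [Prod.fst_neg, ← sub_eq_add_neg]
          exact eq_sub_of_add_eq h3
        · have h3 := lin_inv_apply (hol := hol) c w0
          unfold lin at h3
          rw [hL c hc, map_add, map_smul, hF c⁻¹ (A.inv_mem hc) _ (huP c hc), hw0, one_smul,
            h2] at h3
          rw [hua, Prod.snd_neg]
          rw [eq_sub_of_add_eq h3]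
          abel }
  have hR0 : ∀ v, ((0 : E), v) ∈ R → v = 0 := by
    rintro v ⟨c, hc, h1, h2⟩
    simp only [add_zero] at h1 h2
    rw [hp] at h1
    rw [← h2]
    exact fix_trivial D hinj x c h1 φ (u c) ((hφP _).2 (huP c hc)) hw0 (hL c hc)
  let S : Submodule ℤ E := (R.toIntSubmodule).map (LinearMap.fst ℤ E E)
  have hS : ∀ s, s ∈ S ↔ ∃ c ∈ A, hol c p = p + s := by
    intro s
    constructor
    · rintro ⟨⟨s', v⟩, ⟨c, hc, h1, _⟩, rfl⟩
      exact ⟨c, hc, h1⟩
    · rintro ⟨c, hc, h1⟩
      exact ⟨(s, u c), ⟨c, hc, h1, rfl⟩, rfl⟩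
  have hSd : DiscreteTopology S := by
    refine discrete_of_finite S ε hε ?_
    refine (hfin.image fun γ => hol γ (dev x) - dev x).subset ?_
    rintro s ⟨hs, hsn⟩
    obtain ⟨c, hc, h1⟩ := (hS s).1 hs
    rw [hp] at h1
    refine ⟨c, ?_, ?_⟩
    · change ‖hol c (dev x) - dev x‖ < ε
      rw [h1, add_sub_cancel_left]
      exact hsn
    · change hol c (dev x) - dev x = s
      rw [h1, add_sub_cancel_left]
  obtain ⟨r, b, hb, hspan, hspanR⟩ := exists_lat_basis' S hSd
  have hSP : ∀ s ∈ S, s ∈ P := by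
    intro s hs
    obtain ⟨c, hc, h1⟩ := (hS s).1 hs
    have : s = φ p • u c + hol c 0 := by
      rw [haff c hc p] at h1
      exact add_left_cancel (h1.symm.trans (add_assoc p _ _))
    rw [this]
    exact P.add_mem (P.smul_mem _ (huP c hc)) ((hφP _).1 (ht0 c hc))
  have hr2 : r ≤ 2 := by
    have h1 : Submodule.span ℝ (range b) ≤ P := by
      rw [hspanR, Submodule.span_le]
      exact hSP
    have h2 := Submodule.finrank_mono h1
    rw [finrank_span_eq_card hb, Fintype.card_fin, hP] at h2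
    exact h2
  have hbS : ∀ j, b j ∈ S := fun j => by rw [← hspan]; exact Submodule.subset_span ⟨j, rfl⟩
  choose cc hcc hccb using fun j => (hS (b j)).1 (hbS j)
  obtain ⟨v, hv⟩ : ∃ v : Fin r → E, v = fun j => u (cc j) := ⟨_, rfl⟩
  have hvR : ∀ j, (b j, v j) ∈ R := fun j => ⟨cc j, hcc j, hccb j, by rw [hv]⟩
  -- the vectors u c are integral combinations of the v j
  have huv : ∀ c ∈ A, u c ∈ Submodule.span ℤ (range v) := by
    intro c hc
    obtain ⟨s, hs⟩ : ∃ s, s = hol c p - p := ⟨_, rfl⟩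
    have hcs : hol c p = p + s := by rw [hs]; abel
    have h1 : (s, u c) ∈ R := ⟨c, hc, hcs, rfl⟩
    have h2 : s ∈ S := (hS s).2 ⟨c, hc, hcs⟩
    rw [← hspan, Submodule.mem_span_range_iff_exists_fun] at h2
    obtain ⟨n, hn⟩ := h2
    have h4 : (∑ j, n j • (b j, v j)) ∈ R :=
      AddSubgroup.sum_mem R fun j _ => AddSubgroup.zsmul_mem R (hvR j) (n j)
    have h5 := R.sub_mem h1 h4
    have h6 : (s, u c) - ∑ j, n j • (b j, v j) = ((0 : E), u c - ∑ j, n j • v j) := by
      refine Prod.ext ?_ ?_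
      · rw [Prod.fst_sub, Prod.fst_sum]
        simp only [Prod.smul_fst]
        rw [hn, sub_self]
      · rw [Prod.snd_sub, Prod.snd_sum]
        simp only [Prod.smul_snd]
    rw [h6] at h5
    have h7 := hR0 _ h5
    rw [sub_eq_zero.1 h7]
    exact Submodule.sum_mem _ fun j _ => Submodule.smul_mem _ _ (Submodule.subset_span ⟨j, rfl⟩)
  have hvP : ∀ j, v j ∈ P := fun j => by rw [hv]; exact huP _ (hcc j)
  have hspanv : Submodule.span ℝ (range v) = P := by
    apply le_antisymm
    · rw [Submodule.span_le]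
      rintro _ ⟨j, rfl⟩
      exact hvP j
    · refine hspanu.trans (Submodule.span_le.2 ?_)
      rintro _ ⟨c, hc, rfl⟩
      have hle : Submodule.span ℤ (range v) ≤ (Submodule.span ℝ (range v)).restrictScalars ℤ :=
        Submodule.span_le.2 Submodule.subset_span
      exact hle (huv c hc)
  have hvli : LinearIndependent ℝ v := by
    rw [linearIndependent_iff_card_le_finrank_span, Set.finrank, hspanv, hP, Fintype.card_fin]
    exact hr2
  -- conjugation
  have hcφ : ∀ γ ∈ K, ∀ w, φ ((hol γ).linear w) = φ ((hol γ).linear w0) * φ w := by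
    intro γ hγ w
    have h4 : w - φ w • w0 ∈ P := by
      rw [← hφP, map_sub, map_smul, hw0, smul_eq_mul, mul_one, sub_self]
    have h5 := (hφP _).2 (hPi γ hγ _ h4)
    rw [map_sub, map_smul, map_sub, map_smul, smul_eq_mul, sub_eq_zero] at h5
    rw [h5]; ring
  obtain ⟨χ, hχ⟩ : ∃ χ : Γ → ℝ, χ = fun γ => φ ((hol γ).linear w0) := ⟨_, rfl⟩
  have hχφ : ∀ γ ∈ K, ∀ w, φ ((hol γ).linear w) = χ γ * φ w := by
    intro γ hγ w
    rw [hcφ γ hγ w, hχ]
  have hχinv : ∀ γ ∈ K, χ γ * χ γ⁻¹ = 1 := by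
    intro γ hγ
    have h1 := lin_inv_apply (hol := hol) γ⁻¹ w0
    rw [inv_inv] at h1
    unfold lin at h1
    have h2 := hχφ γ hγ ((hol γ⁻¹).linear w0)
    rw [h1, hw0, hχφ γ⁻¹ (K.inv_mem hγ), hw0, mul_one] at h2
    exact h2.symm
  have hconj : ∀ γ ∈ K, ∀ c ∈ A, ∃ d ∈ A, u d = χ γ⁻¹ • (hol γ).linear (u c) := by
    intro γ hγ c hc
    obtain ⟨d, hd, h1⟩ := hnor γ hγ c hc
    refine ⟨d, hd, ?_⟩
    have h2 : ∀ w, (hol (γ * c * γ⁻¹)).linear w = (hol d).linear w := by
      intro w
      have e1 : ∀ δ : Γ, (hol δ).linear w = hol δ w - hol δ 0 := by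
        intro δ
        have := hol_add (hol := hol) δ 0 w
        rw [zero_add] at this
        rw [this]
        unfold lin
        abel
      rw [e1, e1, h1, h1]
    have h4 := h2 w0
    have h5 : (hol (γ * c * γ⁻¹)).linear w0 = (hol γ).linear ((hol c).linear
        ((hol γ⁻¹).linear w0)) := by
      have e1 := lin_mul (hol := hol) (γ * c) γ⁻¹ w0
      have e2 := lin_mul (hol := hol) γ c (lin hol γ⁻¹ w0)
      unfold lin at e1 e2
      rw [e1, e2]
    have h6 := lin_inv_apply (hol := hol) γ⁻¹ w0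
    rw [inv_inv] at h6
    unfold lin at h6
    rw [h5, hL c hc, map_add, map_smul, h6, hL d hd, hw0, one_smul, hχφ γ⁻¹ (K.inv_mem hγ), hw0,
      mul_one] at h4
    exact (add_left_cancel h4).symm
  have habs : ∀ γ ∈ K, |χ γ| = 1 := by
    intro γ hγ
    have h4 : ∀ w ∈ LinearMap.ker φ, ((hol γ).linear : E →ₗ[ℝ] E) w ∈ LinearMap.ker φ := by
      intro w hw
      rw [hφ] at hw ⊢
      exact hPi γ hγ w hw
    have h5 := det_ker φ hφ0 ((hol γ).linear : E →ₗ[ℝ] E) (χ γ) (hχφ γ hγ) h4
    have hx : χ γ * χ γ⁻¹ = 1 := hχinv γ hγ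
    have hvs : ∀ (δ : Γ), δ ∈ K → ∀ j, χ δ⁻¹ • (hol δ).linear (v j) ∈
        Submodule.span ℤ (range v) := by
      intro δ hδ j
      obtain ⟨d, hd, h6⟩ := hconj δ hδ (cc j) (hcc j)
      have : v j = u (cc j) := by rw [hv]
      rw [this, ← h6]
      exact huv d hd
    have h6 : ∀ w ∈ Submodule.span ℝ (range v),
        (χ γ⁻¹ • ((hol γ).linear : E →ₗ[ℝ] E)) w ∈ Submodule.span ℝ (range v) := by
      intro w hw
      rw [hspanv] at hw ⊢
      exact P.smul_mem _ (hPi γ hγ w hw)
    have h7 := det_on_span v hvli (χ γ⁻¹ • ((hol γ).linear : E →ₗ[ℝ] E))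
      (χ γ • ((hol γ⁻¹).linear : E →ₗ[ℝ] E))
      (by
        intro w
        have h8 := lin_inv_apply (hol := hol) γ⁻¹ w
        rw [inv_inv] at h8
        unfold lin at h8
        change χ γ⁻¹ • (hol γ).linear (χ γ • (hol γ⁻¹).linear w) = w
        rw [map_smul, h8, smul_smul, mul_comm, hx, one_smul])
      (hvs γ hγ)
      (by
        intro j
        have := hvs γ⁻¹ (K.inv_mem hγ) j
        rw [inv_inv] at this
        exact this) h6
    have h8 : ∀ (S' : Submodule ℝ E) (_ : S' = Submodule.span ℝ (range v))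
        (h4' : ∀ w ∈ S', ((hol γ).linear : E →ₗ[ℝ] E) w ∈ S') (_ : finrank ℝ S' = 2),
        |χ γ⁻¹| ^ 2 * |LinearMap.det (((hol γ).linear : E →ₗ[ℝ] E).restrict h4')| = 1 := by
      intro S' hS' h4' h2'
      subst hS'
      have e1 : (χ γ⁻¹ • ((hol γ).linear : E →ₗ[ℝ] E)).restrict h6 =
          χ γ⁻¹ • (((hol γ).linear : E →ₗ[ℝ] E).restrict h4') := rfl
      rw [e1, LinearMap.det_smul, h2', abs_mul, abs_pow] at h7
      exact h7
    have h9 := h8 (LinearMap.ker φ) (by rw [hφ, hspanv]) h4 (by rw [hφ, hP])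
    have h10 := D.unimod γ
    rw [h5, abs_mul] at h10
    obtain ⟨y, hy⟩ : ∃ y, y = |χ γ| := ⟨_, rfl⟩
    obtain ⟨z, hz⟩ : ∃ z, z = |χ γ⁻¹| := ⟨_, rfl⟩
    obtain ⟨d, hd⟩ : ∃ d, d = |LinearMap.det (((hol γ).linear : E →ₗ[ℝ] E).restrict h4)| :=
      ⟨_, rfl⟩
    have hyz : y * z = 1 := by rw [hy, hz, ← abs_mul, hx, abs_one]
    rw [← hz, ← hd] at h9
    rw [← hy, ← hd] at h10
    rw [← hy]
    have hy0 : 0 ≤ y := by rw [hy]; exact abs_nonneg _
    have h11 : d = y ^ 2 := by
      have : y ^ 2 * (z ^ 2 * d) = y ^ 2 * 1 := by rw [h9]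
      have e : y ^ 2 * (z ^ 2 * d) = (y * z) ^ 2 * d := by ring
      rw [e, hyz] at this
      linarith
    rw [h11] at h10
    have h12 : y ^ 3 = 1 := by linarith
    have h13 : (y - 1) * (y ^ 2 + y + 1) = 0 := by linarith
    rcases mul_eq_zero.1 h13 with h14 | h14
    · linarith
    · nlinarith
  obtain ⟨H, hH, -, hH1, -⟩ := finiteIndex_of_abs_one (hol := hol) K φ hφ0 χ hχφ habs hK
  refine RankOneSubspaces.result.1 E X Γ dev hol D hinj H hH P (Or.inr ⟨hP, ?_⟩)
  intro γ hγ w
  rw [← hφP, map_sub, hH1 γ hγ, sub_self]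

end

end Pool.Agent.H817.MA
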