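import Mathlib

/-!
Groups of linear maps of a three-dimensional space which preserve a line, and whose action on the
quotient by the line normalises a non-scalar matrix up to scalars, are solvable.
-/

set_option autoImplicit false
set_option linter.unusedSectionVars false

namespace Pool.Agent.H817.MA

open Module
open scoped commutatorElement

/-- 2 × 2 matrices which commute with a non-scalar matrix commute -/
theorem comm_of_nonscalar (A B C : Matrix (Fin 2) (Fin 2) ℝ)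
    (hC : ¬ (C 0 1 = 0 ∧ C 1 0 = 0 ∧ C 0 0 = C 1 1)) (hA : A * C = C * A) (hB : B * C = C * B) :
    A * B = B * A := by
  have ent : ∀ M : Matrix (Fin 2) (Fin 2) ℝ, M * C = C * M →
      M 0 1 * C 1 0 = C 0 1 * M 1 0 ∧ M 0 1 * (C 0 0 - C 1 1) = C 0 1 * (M 0 0 - M 1 1) ∧
      M 1 0 * (C 0 0 - C 1 1) = C 1 0 * (M 0 0 - M 1 1) := by
    intro M hM
    have h00 := congrFun (congrFun hM 0) 0
    have h01 := congrFun (congrFun hM 0) 1
    have h10 := congrFun (congrFun hM 1) 0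
    simp only [Matrix.mul_apply, Fin.sum_univ_two] at h00 h01 h10
    refine ⟨by linarith, by linarith, by linarith⟩
  obtain ⟨a1, a2, a3⟩ := ent A hA
  obtain ⟨b1, b2, b3⟩ := ent B hB
  have key : A 0 1 * B 1 0 = A 1 0 * B 0 1 ∧ A 0 1 * (B 0 0 - B 1 1) = B 0 1 * (A 0 0 - A 1 1) ∧
      A 1 0 * (B 0 0 - B 1 1) = B 1 0 * (A 0 0 - A 1 1) := by
    by_cases hq : C 0 1 = 0
    · by_cases hr : C 1 0 = 0
      · have hp : C 0 0 - C 1 1 ≠ 0 := by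
          intro h
          exact hC ⟨hq, hr, by linarith⟩
        rw [hq, zero_mul] at a2 b2
        rw [hr, zero_mul] at a3 b3
        have x1 : A 0 1 = 0 := by rcases mul_eq_zero.1 a2 with h | h; exacts [h, absurd h hp]
        have x2 : B 0 1 = 0 := by rcases mul_eq_zero.1 b2 with h | h; exacts [h, absurd h hp]
        have x3 : A 1 0 = 0 := by rcases mul_eq_zero.1 a3 with h | h; exacts [h, absurd h hp]
        have x4 : B 1 0 = 0 := by rcases mul_eq_zero.1 b3 with h | h; exacts [h, absurd h hp]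
        rw [x1, x2, x3, x4]
        simp
      · refine ⟨mul_left_cancel₀ hr ?_, mul_left_cancel₀ hr ?_, mul_left_cancel₀ hr ?_⟩
        · linear_combination B 1 0 * a1 - A 1 0 * b1
        · have y1 : A 0 1 * C 1 0 = 0 := by rw [a1, hq, zero_mul]
          have y2 : B 0 1 * C 1 0 = 0 := by rw [b1, hq, zero_mul]
          linear_combination (B 0 0 - B 1 1) * y1 - (A 0 0 - A 1 1) * y2
        · linear_combination (-(A 1 0)) * b3 + B 1 0 * a3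
    · have h2 : A 0 1 * (B 0 0 - B 1 1) = B 0 1 * (A 0 0 - A 1 1) :=
        mul_left_cancel₀ hq (by linear_combination (-(A 0 1)) * b2 + B 0 1 * a2)
      refine ⟨mul_left_cancel₀ hq ?_, h2, mul_left_cancel₀ hq ?_⟩
      · linear_combination (-(A 0 1)) * b1 + B 0 1 * a1
      · have z1 : C 0 1 * A 1 0 = A 0 1 * C 1 0 := a1.symm
        have z2 : C 0 1 * B 1 0 = B 0 1 * C 1 0 := b1.symm
        linear_combination (B 0 0 - B 1 1) * z1 - (A 0 0 - A 1 1) * z2 + C 1 0 * h2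
  obtain ⟨k1, k2, k3⟩ := key
  ext i j
  fin_cases i <;> fin_cases j
  · simp [Matrix.mul_apply, Fin.sum_univ_two]
    linarith
  · simp [Matrix.mul_apply, Fin.sum_univ_two]
    linarith
  · simp [Matrix.mul_apply, Fin.sum_univ_two]
    linarith
  · simp [Matrix.mul_apply, Fin.sum_univ_two]
    linarith

section
variable {E : Type*} [AddCommGroup E] [Module ℝ E]

/-- adapted frame for a line `ℝ u` in a three-dimensional space -/
structure Frame (u e1 e2 : E) (f1 f2 : E →ₗ[ℝ] ℝ) : Prop where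
  hu : u ≠ 0
  f11 : f1 e1 = 1
  f12 : f1 e2 = 0
  f21 : f2 e1 = 0
  f22 : f2 e2 = 1
  f1u : f1 u = 0
  f2u : f2 u = 0
  ker : ∀ v, f1 v = 0 → f2 v = 0 → ∃ s : ℝ, v = s • u

/-- action on the quotient by the line -/
def qm (e1 e2 : E) (f1 f2 : E →ₗ[ℝ] ℝ) (T : E ≃ₗ[ℝ] E) : Matrix (Fin 2) (Fin 2) ℝ :=
  !![f1 (T e1), f1 (T e2); f2 (T e1), f2 (T e2)]

variable {u e1 e2 : E} {f1 f2 : E →ₗ[ℝ] ℝ}

theorem Frame.decomp (h : Frame u e1 e2 f1 f2) (v : E) :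
    ∃ s : ℝ, v = f1 v • e1 + f2 v • e2 + s • u := by
  obtain ⟨s, hs⟩ := h.ker (v - f1 v • e1 - f2 v • e2)
    (by simp [h.f11, h.f12]) (by simp [h.f21, h.f22])
  exact ⟨s, by rw [← hs]; abel⟩

theorem Frame.eval (h : Frame u e1 e2 f1 f2) (S : E →ₗ[ℝ] E) {c : ℝ} (hS : S u = c • u) (v : E) :
    f1 (S v) = f1 (S e1) * f1 v + f1 (S e2) * f2 v ∧
    f2 (S v) = f2 (S e1) * f1 v + f2 (S e2) * f2 v := by
  obtain ⟨s, hs⟩ := h.decomp v
  have e : S v = f1 v • S e1 + f2 v • S e2 + s • c • u := by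
    conv_lhs => rw [hs]
    rw [map_add, map_add, map_smul, map_smul, map_smul, hS]
  constructor
  · rw [e]
    simp only [map_add, map_smul, smul_eq_mul, h.f1u]
    ring
  · rw [e]
    simp only [map_add, map_smul, smul_eq_mul, h.f2u]
    ring

theorem Frame.mul (h : Frame u e1 e2 f1 f2) (S T : E ≃ₗ[ℝ] E) {c : ℝ} (hS : S u = c • u) :
    qm e1 e2 f1 f2 (S * T) = qm e1 e2 f1 f2 S * qm e1 e2 f1 f2 T := by
  have h1 := h.eval (S : E →ₗ[ℝ] E) hS (T e1)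
  have h2 := h.eval (S : E →ₗ[ℝ] E) hS (T e2)
  ext i j
  fin_cases i <;> fin_cases j
  · simpa [qm, Matrix.mul_apply, Fin.sum_univ_two] using h1.1
  · simpa [qm, Matrix.mul_apply, Fin.sum_univ_two] using h2.1
  · simpa [qm, Matrix.mul_apply, Fin.sum_univ_two] using h1.2
  · simpa [qm, Matrix.mul_apply, Fin.sum_univ_two] using h2.2

theorem Frame.one (h : Frame u e1 e2 f1 f2) : qm e1 e2 f1 f2 (1 : E ≃ₗ[ℝ] E) = 1 := by
  ext i j
  fin_cases i <;> fin_cases j <;> simp [qm, h.f11, h.f12, h.f21, h.f22]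

theorem solvable_of_normalises (h : Frame u e1 e2 f1 f2) (Λ : Subgroup (E ≃ₗ[ℝ] E))
    (hline : ∀ T ∈ Λ, ∃ c : ℝ, T u = c • u) (C : Matrix (Fin 2) (Fin 2) ℝ)
    (hC : ¬ (C 0 1 = 0 ∧ C 1 0 = 0 ∧ C 0 0 = C 1 1))
    (hnorm : ∀ T ∈ Λ, ∃ κ : ℝ, qm e1 e2 f1 f2 T * C = κ • (C * qm e1 e2 f1 f2 T)) :
    Group.IsSolvable Λ := by
  have hC0 : C ≠ 0 := by
    intro h0
    apply hC
    rw [h0]
    simp
  obtain ⟨M, hM⟩ : ∃ M, M = qm e1 e2 f1 f2 := ⟨_, rfl⟩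
  rw [← hM] at hnorm
  have hmul : ∀ S ∈ Λ, ∀ T, M (S * T) = M S * M T := by
    intro S hS T
    obtain ⟨c, hc⟩ := hline S hS
    rw [hM]
    exact h.mul S T hc
  have hone : M 1 = 1 := by rw [hM]; exact h.one
  have hinv : ∀ S ∈ Λ, M S * M S⁻¹ = 1 ∧ M S⁻¹ * M S = 1 := by
    intro S hS
    refine ⟨?_, ?_⟩
    · rw [← hmul S hS, mul_inv_cancel, hone]
    · rw [← hmul S⁻¹ (inv_mem hS), inv_mul_cancel, hone]
  have hcne : ∀ T ∈ Λ, ∀ c : ℝ, T u = c • u → c ≠ 0 := by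
    intro T _ c hc h0
    rw [h0, zero_smul] at hc
    exact h.hu ((LinearEquiv.map_eq_zero_iff T).1 hc)
  have hκ : ∀ T ∈ Λ, ∃ κ : ℝ, κ ≠ 0 ∧ M T * C = κ • (C * M T) := by
    intro T hT
    obtain ⟨κ, hκ⟩ := hnorm T hT
    refine ⟨κ, ?_, hκ⟩
    intro h0
    rw [h0, zero_smul] at hκ
    apply hC0
    calc C = (M T⁻¹ * M T) * C := by rw [(hinv T hT).2, one_mul]
      _ = M T⁻¹ * (M T * C) := by rw [Matrix.mul_assoc]
      _ = 0 := by rw [hκ, mul_zero]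
  -- the two subgroups
  let Q1 : Subgroup Λ :=
    { carrier := {T | (T : E ≃ₗ[ℝ] E) u = u ∧ M T * C = C * M T}
      one_mem' := by
        refine ⟨rfl, ?_⟩
        change M 1 * C = C * M 1
        rw [hone, one_mul, mul_one]
      mul_mem' := by
        rintro S T ⟨hS1, hS2⟩ ⟨hT1, hT2⟩
        refine ⟨?_, ?_⟩
        · change (S : E ≃ₗ[ℝ] E) ((T : E ≃ₗ[ℝ] E) u) = u
          rw [hT1, hS1]
        · change M ((S : E ≃ₗ[ℝ] E) * T) * C = C * M ((S : E ≃ₗ[ℝ] E) * T)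
          rw [hmul S S.2, Matrix.mul_assoc, hT2, ← Matrix.mul_assoc, hS2, Matrix.mul_assoc]
      inv_mem' := by
        rintro S ⟨hS1, hS2⟩
        refine ⟨?_, ?_⟩
        · change (S : E ≃ₗ[ℝ] E)⁻¹ u = u
          nth_rewrite 1 [← hS1]
          exact (S : E ≃ₗ[ℝ] E).symm_apply_apply u
        · change M (S : E ≃ₗ[ℝ] E)⁻¹ * C = C * M (S : E ≃ₗ[ℝ] E)⁻¹
          calc M (S : E ≃ₗ[ℝ] E)⁻¹ * C
              = M (S : E ≃ₗ[ℝ] E)⁻¹ * C * (M S * M (S : E ≃ₗ[ℝ] E)⁻¹) := by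
                rw [(hinv S S.2).1, mul_one]
            _ = M (S : E ≃ₗ[ℝ] E)⁻¹ * (C * M S) * M (S : E ≃ₗ[ℝ] E)⁻¹ := by
                simp only [Matrix.mul_assoc]
            _ = (M (S : E ≃ₗ[ℝ] E)⁻¹ * M S) * C * M (S : E ≃ₗ[ℝ] E)⁻¹ := by
                rw [← hS2]; simp only [Matrix.mul_assoc]
            _ = C * M (S : E ≃ₗ[ℝ] E)⁻¹ := by rw [(hinv S S.2).2, one_mul] }
  let Q2 : Subgroup Λ :=
    { carrier := {T | (T : E ≃ₗ[ℝ] E) u = u ∧ M T = 1}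
      one_mem' := ⟨rfl, hone⟩
      mul_mem' := by
        rintro S T ⟨hS1, hS2⟩ ⟨hT1, hT2⟩
        refine ⟨?_, ?_⟩
        · change (S : E ≃ₗ[ℝ] E) ((T : E ≃ₗ[ℝ] E) u) = u
          rw [hT1, hS1]
        · change M ((S : E ≃ₗ[ℝ] E) * T) = 1
          rw [hmul S S.2, hS2, hT2, one_mul]
      inv_mem' := by
        rintro S ⟨hS1, hS2⟩
        refine ⟨?_, ?_⟩
        · change (S : E ≃ₗ[ℝ] E)⁻¹ u = u
          nth_rewrite 1 [← hS1]
          exact (S : E ≃ₗ[ℝ] E).symm_apply_apply u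
        · change M (S : E ≃ₗ[ℝ] E)⁻¹ = 1
          have := (hinv S S.2).1
          rwa [hS2, one_mul] at this }
  have hM4 : ∀ S T : Λ, M ((⁅S, T⁆ : Λ) : E ≃ₗ[ℝ] E) =
      M S * M T * M (S : E ≃ₗ[ℝ] E)⁻¹ * M (T : E ≃ₗ[ℝ] E)⁻¹ := by
    intro S T
    have : ((⁅S, T⁆ : Λ) : E ≃ₗ[ℝ] E) = S * T * (S : E ≃ₗ[ℝ] E)⁻¹ * (T : E ≃ₗ[ℝ] E)⁻¹ := rfl
    rw [this, hmul _ (mul_mem (mul_mem S.2 T.2) (inv_mem S.2)), hmul _ (mul_mem S.2 T.2),
      hmul _ S.2]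
  have hap : ∀ (S T : Λ) (v : E), ((⁅S, T⁆ : Λ) : E ≃ₗ[ℝ] E) v =
      (S : E ≃ₗ[ℝ] E) ((T : E ≃ₗ[ℝ] E) ((S : E ≃ₗ[ℝ] E)⁻¹ ((T : E ≃ₗ[ℝ] E)⁻¹ v))) :=
    fun S T v => rfl
  have hinvu : ∀ (T : Λ) (c : ℝ), (T : E ≃ₗ[ℝ] E) u = c • u → (T : E ≃ₗ[ℝ] E)⁻¹ u = c⁻¹ • u := by
    intro T c hc
    have hc0 := hcne T T.2 c hc
    have : (T : E ≃ₗ[ℝ] E)⁻¹ ((T : E ≃ₗ[ℝ] E) u) = u := (T : E ≃ₗ[ℝ] E).symm_apply_apply u
    rw [hc, map_smul] at this
    rw [← this, smul_smul, inv_mul_cancel₀ hc0, one_smul]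
    exact this.symm ▸ rfl
  have hD1 : derivedSeries Λ 1 ≤ Q1 := by
    rw [derivedSeries_succ, Subgroup.commutator_le]
    intro S _ T _
    obtain ⟨c, hc⟩ := hline S S.2
    obtain ⟨d, hd⟩ := hline T T.2
    obtain ⟨κ, hκ0, hκS⟩ := hκ S S.2
    obtain ⟨l, hl0, hlT⟩ := hκ T T.2
    refine ⟨?_, ?_⟩
    · rw [hap, hinvu T d hd, map_smul, hinvu S c hc, map_smul, map_smul, map_smul, map_smul, hd,
        map_smul, hc, smul_smul, smul_smul, smul_smul]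
      have hc0 := hcne S S.2 c hc
      have hd0 := hcne T T.2 d hd
      have : d⁻¹ * (c⁻¹ * (d * c)) = 1 := by field_simp
      have h2 : d⁻¹ * c⁻¹ * d * c = 1 := by rw [← this]; ring
      first
        | rw [this, one_smul]
        | rw [h2, one_smul]
    · have inv' : ∀ (S : Λ) (κ : ℝ), κ ≠ 0 → M S * C = κ • (C * M S) →
          M (S : E ≃ₗ[ℝ] E)⁻¹ * C = κ⁻¹ • (C * M (S : E ≃ₗ[ℝ] E)⁻¹) := by
        intro S κ hκ0 hS
        have e1 : C * M S = κ⁻¹ • (M S * C) := by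
          rw [hS, smul_smul, inv_mul_cancel₀ hκ0, one_smul]
        calc M (S : E ≃ₗ[ℝ] E)⁻¹ * C
            = M (S : E ≃ₗ[ℝ] E)⁻¹ * C * (M S * M (S : E ≃ₗ[ℝ] E)⁻¹) := by
              rw [(hinv S S.2).1, mul_one]
          _ = M (S : E ≃ₗ[ℝ] E)⁻¹ * (C * M S) * M (S : E ≃ₗ[ℝ] E)⁻¹ := by
              simp only [Matrix.mul_assoc]
          _ = κ⁻¹ • ((M (S : E ≃ₗ[ℝ] E)⁻¹ * M S) * C * M (S : E ≃ₗ[ℝ] E)⁻¹) := by
              rw [e1]; simp only [Matrix.mul_smul, Matrix.smul_mul, Matrix.mul_assoc]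
          _ = κ⁻¹ • (C * M (S : E ≃ₗ[ℝ] E)⁻¹) := by rw [(hinv S S.2).2, one_mul]
      have iS := inv' S κ hκ0 hκS
      have iT := inv' T l hl0 hlT
      rw [hM4]
      calc M S * M T * M (S : E ≃ₗ[ℝ] E)⁻¹ * M (T : E ≃ₗ[ℝ] E)⁻¹ * C
          = M S * M T * M (S : E ≃ₗ[ℝ] E)⁻¹ * (M (T : E ≃ₗ[ℝ] E)⁻¹ * C) := by
            simp only [Matrix.mul_assoc]
        _ = l⁻¹ • (M S * M T * (M (S : E ≃ₗ[ℝ] E)⁻¹ * C) * M (T : E ≃ₗ[ℝ] E)⁻¹) := by
            rw [iT]; simp only [Matrix.mul_smul, Matrix.mul_assoc]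
        _ = (l⁻¹ * κ⁻¹) • (M S * (M T * C) * M (S : E ≃ₗ[ℝ] E)⁻¹ * M (T : E ≃ₗ[ℝ] E)⁻¹) := by
            rw [iS]
            simp only [Matrix.mul_smul, Matrix.smul_mul, Matrix.mul_assoc, smul_smul]
        _ = (l⁻¹ * κ⁻¹ * l) • ((M S * C) * M T * M (S : E ≃ₗ[ℝ] E)⁻¹ *
              M (T : E ≃ₗ[ℝ] E)⁻¹) := by
            rw [hlT]
            simp only [Matrix.mul_smul, Matrix.smul_mul, Matrix.mul_assoc, smul_smul]
        _ = (l⁻¹ * κ⁻¹ * l * κ) • (C * (M S * M T * M (S : E ≃ₗ[ℝ] E)⁻¹ *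
              M (T : E ≃ₗ[ℝ] E)⁻¹)) := by
            rw [hκS]
            simp only [Matrix.smul_mul, Matrix.mul_assoc, smul_smul]
        _ = C * (M S * M T * M (S : E ≃ₗ[ℝ] E)⁻¹ * M (T : E ≃ₗ[ℝ] E)⁻¹) := by
            have : l⁻¹ * κ⁻¹ * l * κ = 1 := by field_simp
            rw [this, one_smul]
  have hD2 : derivedSeries Λ 2 ≤ Q2 := by
    rw [derivedSeries_succ, Subgroup.commutator_le]
    intro S hS T hT
    obtain ⟨hS1, hS2⟩ := hD1 hS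
    obtain ⟨hT1, hT2⟩ := hD1 hT
    have hc := comm_of_nonscalar (M S) (M T) C hC hS2 hT2
    refine ⟨?_, ?_⟩
    · have hS3 := hinvu S 1 (by rw [one_smul]; exact hS1)
      have hT3 := hinvu T 1 (by rw [one_smul]; exact hT1)
      rw [inv_one, one_smul] at hS3 hT3
      rw [hap, hT3, hS3, hT1, hS1]
    · rw [hM4, hc]
      calc M T * M S * M (S : E ≃ₗ[ℝ] E)⁻¹ * M (T : E ≃ₗ[ℝ] E)⁻¹
          = M T * (M S * M (S : E ≃ₗ[ℝ] E)⁻¹) * M (T : E ≃ₗ[ℝ] E)⁻¹ := by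
            simp only [Matrix.mul_assoc]
        _ = 1 := by rw [(hinv S S.2).1, mul_one, (hinv T T.2).1]
  have hD3 : derivedSeries Λ 3 = ⊥ := by
    rw [eq_bot_iff, derivedSeries_succ, Subgroup.commutator_le]
    intro S hS T hT
    obtain ⟨hS1, hS2⟩ := hD2 hS
    obtain ⟨hT1, hT2⟩ := hD2 hT
    have disp : ∀ R : Λ, M R = 1 → ∀ v, ∃ s : ℝ, (R : E ≃ₗ[ℝ] E) v = v + s • u := by
      intro R hR v
      obtain ⟨c, hc⟩ := hline R R.2
      have h1 := h.eval ((R : E ≃ₗ[ℝ] E) : E →ₗ[ℝ] E) hc v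
      rw [hM] at hR
      have r00 := congrFun (congrFun hR 0) 0
      have r01 := congrFun (congrFun hR 0) 1
      have r10 := congrFun (congrFun hR 1) 0
      have r11 := congrFun (congrFun hR 1) 1
      simp [qm] at r00 r01 r10 r11
      simp only [LinearEquiv.coe_coe] at h1
      rw [r00, r01, r10, r11] at h1
      obtain ⟨s, hs⟩ := h.ker ((R : E ≃ₗ[ℝ] E) v - v) (by rw [map_sub, h1.1]; ring)
        (by rw [map_sub, h1.2]; ring)
      exact ⟨s, by rw [← hs]; abel⟩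
    rw [Subgroup.mem_bot, commutatorElement_eq_one_iff_mul_comm]
    apply Subtype.ext
    apply LinearEquiv.ext
    intro v
    change (S : E ≃ₗ[ℝ] E) ((T : E ≃ₗ[ℝ] E) v) = (T : E ≃ₗ[ℝ] E) ((S : E ≃ₗ[ℝ] E) v)
    obtain ⟨s, hs⟩ := disp S hS2 v
    obtain ⟨t, ht⟩ := disp T hT2 v
    rw [hs, ht, map_add, map_add, map_smul, map_smul, hs, ht, hS1, hT1]
    abel
  exact ⟨⟨3, hD3⟩⟩

end

end Pool.Agent.H817.MA
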