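import Pool.Agent.H817.MA.Trans
import Pool.Agent.H817.MA.Solv

/-!
Closed special affine 3-manifolds with injective developing map whose linear holonomy preserves a
full flag are complete; common kernels of commuting nilpotent maps.
-/

set_option autoImplicit false
set_option linter.unusedSectionVars false

namespace Pool.Agent.H817.MA

open Pool.Agent.W689.Mk Set Filter Topology Module
open Pool.Agent.Results.MP_df2bd8_gt

section lin
variable {E : Type*} [AddCommGroup E] [Module ℝ E] [FiniteDimensional ℝ E]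

theorem frame_of_dual (h3 : finrank ℝ E = 3) {u e1 e2 : E} {f1 f2 : E →ₗ[ℝ] ℝ} (hu : u ≠ 0)
    (f11 : f1 e1 = 1) (f12 : f1 e2 = 0) (f21 : f2 e1 = 0) (f22 : f2 e2 = 1) (f1u : f1 u = 0)
    (f2u : f2 u = 0) : Frame u e1 e2 f1 f2 := by
  refine ⟨hu, f11, f12, f21, f22, f1u, f2u, ?_⟩
  let Φ : E →ₗ[ℝ] ℝ × ℝ := f1.prod f2
  have hs : LinearMap.range Φ = ⊤ := by
    rw [LinearMap.range_eq_top]
    rintro ⟨a, b⟩
    refine ⟨a • e1 + b • e2, ?_⟩
    simp [Φ, f11, f12, f21, f22]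
  have h1 := LinearMap.finrank_range_add_finrank_ker Φ
  rw [hs, finrank_top, finrank_prod, finrank_self, h3] at h1
  have h2 : finrank ℝ (LinearMap.ker Φ) = 1 := by omega
  have huk : u ∈ LinearMap.ker Φ := by
    rw [LinearMap.mem_ker]
    simp [Φ, f1u, f2u]
  have hu' : (⟨u, huk⟩ : LinearMap.ker Φ) ≠ 0 := by
    intro h
    exact hu (congrArg Subtype.val h)
  rw [finrank_eq_one_iff_of_nonzero' _ hu'] at h2
  intro v hv1 hv2
  obtain ⟨c, hc⟩ := h2 ⟨v, by rw [LinearMap.mem_ker]; simp [Φ, hv1, hv2]⟩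
  exact ⟨c, (congrArg Subtype.val hc).symm⟩

/-- a commuting family of nilpotent maps has a common kernel on each invariant subspace -/
theorem common_kernel {ι : Type*} (N : ι → E →ₗ[ℝ] E) (S : Set ι)
    (hc : ∀ a ∈ S, ∀ b ∈ S, ∀ v, N a (N b v) = N b (N a v))
    (hn : ∀ a ∈ S, ∃ k : ℕ, (N a) ^ k = 0) :
    ∀ (n : ℕ) (V : Submodule ℝ E), finrank ℝ V ≤ n → V ≠ ⊥ → (∀ a ∈ S, ∀ v ∈ V, N a v ∈ V) →
      ∃ v ∈ V, v ≠ 0 ∧ ∀ a ∈ S, N a v = 0 := by
  intro n
  induction n with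
  | zero =>
    intro V hV hV0 _
    exact absurd (Submodule.finrank_eq_zero.1 (by omega)) hV0
  | succ n ih =>
    intro V hV hV0 hinv
    by_cases hall : ∀ a ∈ S, ∀ v ∈ V, N a v = 0
    · obtain ⟨v, hv, hv0⟩ := Submodule.exists_mem_ne_zero_of_ne_bot hV0
      exact ⟨v, hv, hv0, fun a ha => hall a ha v hv⟩
    · push Not at hall
      obtain ⟨a, ha, w, hw, hw0⟩ := hall
      obtain ⟨V1, hV1⟩ : ∃ V1, V1 = V ⊓ LinearMap.ker (N a) := ⟨_, rfl⟩
      have hlt : V1 < V := by
        rw [hV1]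
        refine lt_of_le_of_ne inf_le_left fun h => hw0 ?_
        have : w ∈ V ⊓ LinearMap.ker (N a) := by rw [h]; exact hw
        exact LinearMap.mem_ker.1 this.2
      have hne : V1 ≠ ⊥ := by
        obtain ⟨k, hk⟩ := hn a ha
        obtain ⟨v, hv, hv0⟩ := Submodule.exists_mem_ne_zero_of_ne_bot hV0
        have hex : ∃ k : ℕ, ((N a) ^ k) v = 0 := ⟨k, by rw [hk]; rfl⟩
        classical
        have hmem : ∀ j : ℕ, ((N a) ^ j) v ∈ V := by
          intro j
          induction j with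
          | zero => exact hv
          | succ j ihj =>
            rw [pow_succ']
            exact hinv a ha _ ihj
        have h1 := Nat.find_spec hex
        have h0 : Nat.find hex ≠ 0 := by
          intro h0
          rw [h0, pow_zero] at h1
          exact hv0 h1
        obtain ⟨j, hj⟩ := Nat.exists_eq_succ_of_ne_zero h0
        have h2 := Nat.find_min hex (m := j) (by omega)
        intro hbot
        have h3 : ((N a) ^ j) v ∈ V1 := by
          rw [hV1]
          refine ⟨hmem j, LinearMap.mem_ker.2 ?_⟩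
          rw [hj, pow_succ'] at h1
          exact h1
        rw [hbot, Submodule.mem_bot] at h3
        exact h2 h3
      have hfin : finrank ℝ V1 < finrank ℝ V := Submodule.finrank_lt_finrank_of_lt hlt
      obtain ⟨v, hv, hv0, h4⟩ := ih V1 (by omega) hne (by
        intro b hb v hv
        rw [hV1] at hv ⊢
        refine ⟨hinv b hb v hv.1, LinearMap.mem_ker.2 ?_⟩
        rw [hc a ha b hb, LinearMap.mem_ker.1 hv.2, map_zero])
      exact ⟨v, hlt.le hv, hv0, h4⟩

/-- the ranges of a commuting family of nilpotent maps do not span -/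
theorem common_range {ι : Type*} (N : ι → E →ₗ[ℝ] E) (S : Set ι)
    (hc : ∀ a ∈ S, ∀ b ∈ S, ∀ v, N a (N b v) = N b (N a v))
    (hn : ∀ a ∈ S, ∃ k : ℕ, (N a) ^ k = 0) (hE : finrank ℝ E ≠ 0) :
    ∃ ψ : E →ₗ[ℝ] ℝ, ψ ≠ 0 ∧ ∀ a ∈ S, ∀ v, ψ (N a v) = 0 := by
  have hpow : ∀ (f : E →ₗ[ℝ] E) (k : ℕ), (f.dualMap) ^ k = (f ^ k).dualMap := by
    intro f k
    induction k with
    | zero =>
      rw [pow_zero, pow_zero]
      exact LinearMap.dualMap_id.symm
    | succ k ih =>
      rw [pow_succ' (f.dualMap), ih, pow_succ f]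
      exact (LinearMap.dualMap_comp_dualMap f (f ^ k)).symm
  have hfin : finrank ℝ (Dual ℝ E) = finrank ℝ E := Subspace.dual_finrank_eq
  obtain ⟨ψ, -, hψ0, hψ⟩ := common_kernel (fun a => (N a).dualMap) S
    (by
      intro a ha b hb ψ
      refine LinearMap.ext fun v => ?_
      change ψ (N b (N a v)) = ψ (N a (N b v))
      rw [hc a ha b hb])
    (by
      intro a ha
      obtain ⟨k, hk⟩ := hn a ha
      refine ⟨k, ?_⟩
      rw [hpow, hk]
      exact LinearMap.ext fun ψ => LinearMap.ext fun v => map_zero ψ) _ (⊤ : Submodule ℝ (Dual ℝ E)) le_rfl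
    (by
      intro h
      have h1 : finrank ℝ (⊤ : Submodule ℝ (Dual ℝ E)) = 0 := by rw [h, finrank_bot]
      rw [finrank_top, hfin] at h1
      exact hE h1)
    (fun _ _ _ _ => Submodule.mem_top)
  exact ⟨ψ, hψ0, fun a ha v => LinearMap.congr_fun (hψ a ha) v⟩

end lin

section
variable {X Γ E : Type} [TopologicalSpace X] [T2Space X] [SecondCountableTopology X]
  [ConnectedSpace X] [Group Γ] [MulAction Γ X]
  [NormedAddCommGroup E] [NormedSpace ℝ E] [FiniteDimensional ℝ E]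
  {dev : X → E} {hol : Γ →* (E ≃ᵃ[ℝ] E)}

theorem flag_complete (D : AffData X Γ E dev hol) (hinj : Function.Injective dev)
    (h3 : finrank ℝ E = 3) (H : Subgroup Γ) (hH : H.FiniteIndex) (l P : Submodule ℝ E)
    (hl : finrank ℝ l = 1) (hP : finrank ℝ P = 2) (hlP : l ≤ P)
    (hli : ∀ γ ∈ H, ∀ v ∈ l, (hol γ).linear v ∈ l)
    (hPi : ∀ γ ∈ H, ∀ v ∈ P, (hol γ).linear v ∈ P) : IsHomeomorph dev := by
  obtain ⟨u, hu, hu0⟩ := Submodule.exists_mem_ne_zero_of_ne_bot
    (show l ≠ ⊥ by intro h; rw [h, finrank_bot] at hl; omega)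
  have hlu : ∀ v ∈ l, ∃ c : ℝ, v = c • u := by
    intro v hv
    have hu' : (⟨u, hu⟩ : l) ≠ 0 := fun h => hu0 (congrArg Subtype.val h)
    obtain ⟨c, hc⟩ := (finrank_eq_one_iff_of_nonzero' _ hu').1 hl ⟨v, hv⟩
    exact ⟨c, (congrArg Subtype.val hc).symm⟩
  obtain ⟨f2, hf20, hf2⟩ := exists_functional P (by rw [hP, h3])
  obtain ⟨e2, he2⟩ : ∃ v, f2 v = 1 := by
    obtain ⟨v, hv⟩ := LinearMap.surjective_of_ne_zero hf20 1
    exact ⟨v, hv⟩
  have hfP : ∀ v, f2 v = 0 ↔ v ∈ P := fun v => by rw [← hf2, LinearMap.mem_ker]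
  -- a vector of P outside the line
  obtain ⟨e1, he1P, he1⟩ : ∃ v ∈ P, v ∉ l := by
    by_contra hcon
    push Not at hcon
    have : P ≤ l := hcon
    have h4 := Submodule.finrank_mono this
    omega
  -- a functional with kernel spanned by u and e2
  obtain ⟨Q, hQ⟩ : ∃ Q, Q = Submodule.span ℝ {u, e2} := ⟨_, rfl⟩
  have hQr : finrank ℝ Q = 2 := by
    have hli2 : LinearIndependent ℝ ![u, e2] := by
      rw [LinearIndependent.pair_iff]
      intro s t hst
      have h4 := congrArg f2 hst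
      rw [map_add, map_smul, map_smul, he2, (hfP u).2 (hlP hu), map_zero] at h4
      simp at h4
      rw [h4, zero_smul, add_zero] at hst
      exact ⟨(smul_eq_zero.1 hst).resolve_right hu0, h4⟩
    have h4 := finrank_span_eq_card hli2
    have h5 : range ![u, e2] = {u, e2} := by
      rw [Matrix.range_cons, Matrix.range_cons, Matrix.range_empty, union_empty]
      rfl
    rw [Fintype.card_fin, h5] at h4
    rw [hQ, h4]
  obtain ⟨g, hg0, hg⟩ := exists_functional Q (by rw [hQr, h3])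
  have hgQ : ∀ v, g v = 0 ↔ v ∈ Q := fun v => by rw [← hg, LinearMap.mem_ker]
  have hgu : g u = 0 := (hgQ u).2 (by rw [hQ]; exact Submodule.subset_span (by simp))
  have hge2 : g e2 = 0 := (hgQ e2).2 (by rw [hQ]; exact Submodule.subset_span (by simp))
  have hge1 : g e1 ≠ 0 := by
    intro h
    rw [hgQ, hQ, Submodule.mem_span_pair] at h
    obtain ⟨a, b, hab⟩ := h
    have h4 := congrArg f2 hab
    rw [map_add, map_smul, map_smul, he2, (hfP u).2 (hlP hu), (hfP e1).2 he1P] at h4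
    simp at h4
    rw [h4, zero_smul, add_zero] at hab
    exact he1 (by rw [← hab]; exact l.smul_mem a hu)
  have hframe : Frame u e1 e2 ((g e1)⁻¹ • g) f2 := by
    refine frame_of_dual h3 hu0 ?_ ?_ ((hfP e1).2 he1P) he2 ?_ ((hfP u).2 (hlP hu))
    · simp [hge1]
    · simp [hge2]
    · simp [hgu]
  refine SolvableGroups.result E X Γ dev hol D hinj H hH ?_
  refine solvable_of_normalises hframe _ ?_ !![0, 1; 0, 0] (by simp) ?_
  · rintro _ ⟨γ, hγ, rfl⟩
    exact hlu _ (hli γ hγ u hu)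
  · rintro _ ⟨γ, hγ, rfl⟩
    obtain ⟨M, hM⟩ : ∃ M, M = qm e1 e2 ((g e1)⁻¹ • g) f2
      ((AffineEquiv.linearHom.comp hol) γ) := ⟨_, rfl⟩
    rw [← hM]
    have h10 : M 1 0 = 0 := by
      rw [hM]
      exact (hfP _).2 (hPi γ hγ e1 he1P)
    have h11 : M 1 1 ≠ 0 := by
      intro h0
      have hz : f2 ((hol γ).linear e2) = 0 := by rw [hM] at h0; exact h0
      obtain ⟨c, hc⟩ := hlu _ (hli γ hγ u hu)
      obtain ⟨v, hv⟩ := (hol γ).linear.surjective e2
      have h5 := (hframe.eval ((hol γ).linear : E →ₗ[ℝ] E) hc v).2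
      have h6 : f2 ((hol γ).linear e1) = 0 := (hfP _).2 (hPi γ hγ e1 he1P)
      simp only [LinearEquiv.coe_coe] at h5
      rw [hv, he2, h6, hz] at h5
      norm_num at h5
    refine ⟨M 0 0 / M 1 1, ?_⟩
    have h12 : M 0 0 / M 1 1 * M 1 1 = M 0 0 := div_mul_cancel₀ _ h11
    obtain ⟨a, ha⟩ : ∃ a, a = M 0 0 := ⟨_, rfl⟩
    obtain ⟨d, hd⟩ : ∃ d, d = M 1 1 := ⟨_, rfl⟩
    have hMe : M = !![a, M 0 1; 0, d] := by
      rw [ha, hd, ← h10]
      exact (Matrix.eta_fin_two M)
    rw [← ha, ← hd] at h12 ⊢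
    rw [hMe, Matrix.mul_fin_two, Matrix.mul_fin_two, Matrix.smul_of]
    ext i j
    fin_cases i <;> fin_cases j <;> simp [h12]

end

end Pool.Agent.H817.MA
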