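import Mathlib

/-!
Lattices: a discrete subgroup has a basis which is independent over the reals; a linear map
preserving a lattice has determinant `± 1`.
-/

set_option autoImplicit false

namespace Pool.Agent.H817.MA

open Submodule Module

/-- a linear automorphism which preserves the lattice spanned by a basis has determinant `± 1` -/
theorem lat_det {V ι : Type*} [AddCommGroup V] [Module ℝ V] [Fintype ι] [DecidableEq ι]
    (b : Basis ι ℝ V) (f g : V →ₗ[ℝ] V) (hfg : f ∘ₗ g = LinearMap.id)
    (hf : ∀ j, f (b j) ∈ span ℤ (Set.range b)) (hg : ∀ j, g (b j) ∈ span ℤ (Set.range b)) :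
    |LinearMap.det f| = 1 := by
  have key : ∀ h : V →ₗ[ℝ] V, (∀ j, h (b j) ∈ span ℤ (Set.range b)) →
      ∃ n : ℤ, LinearMap.det h = n := by
    intro h hh
    have h1 : ∀ i j, ∃ n : ℤ, LinearMap.toMatrix b b h i j = n := by
      intro i j
      rw [LinearMap.toMatrix_apply]
      have h2 := (Basis.mem_span_iff_repr_mem ℤ b (h (b j))).1 (hh j) i
      obtain ⟨n, hn⟩ := h2
      exact ⟨n, by rw [← hn]; rfl⟩
    choose N hN using h1
    refine ⟨(Matrix.of fun i j => N i j).det, ?_⟩
    rw [← LinearMap.det_toMatrix b h]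
    have h3 : LinearMap.toMatrix b b h = (Matrix.of fun i j => N i j).map (Int.castRingHom ℝ) := by
      ext i j
      rw [hN]
      rfl
    rw [h3, ← RingHom.mapMatrix_apply, ← RingHom.map_det]
    rfl
  obtain ⟨n, hn⟩ := key f hf
  obtain ⟨m, hm⟩ := key g hg
  have h1 : LinearMap.det f * LinearMap.det g = 1 := by
    rw [← LinearMap.det_comp, hfg, LinearMap.det_id]
  rw [hn, hm] at h1
  have h2 : n * m = 1 := by exact_mod_cast h1
  rw [hn]
  rcases Int.eq_one_or_neg_one_of_mul_eq_one h2 with h | h
  · rw [h]; norm_num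
  · rw [h]; norm_num

/-- determinant of a linear map preserving the kernel of a functional -/
theorem det_ker {E : Type*} [AddCommGroup E] [Module ℝ E] [FiniteDimensional ℝ E]
    (φ : E →ₗ[ℝ] ℝ) (hφ : φ ≠ 0) (f : E →ₗ[ℝ] E) (c : ℝ) (hf : ∀ v, φ (f v) = c * φ v)
    (h : ∀ v ∈ LinearMap.ker φ, f v ∈ LinearMap.ker φ) :
    LinearMap.det f = LinearMap.det (f.restrict h) * c := by
  have h1 := LinearMap.det_eq_det_mul_det (LinearMap.ker φ) f (fun v hv => h v hv)
  rw [h1]
  have hrank : finrank ℝ (E ⧸ LinearMap.ker φ) = 1 := by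
    have hs : Function.Surjective φ := LinearMap.surjective_of_ne_zero hφ
    rw [(LinearMap.quotKerEquivOfSurjective φ hs).finrank_eq, finrank_self]
  have h2 : (LinearMap.ker φ).mapQ (LinearMap.ker φ) f (fun v hv => h v hv) =
      c • LinearMap.id := by
    refine LinearMap.ext fun x => ?_
    refine Quotient.inductionOn' x fun v => ?_
    change (LinearMap.ker φ).mapQ (LinearMap.ker φ) f (fun v hv => h v hv) (Submodule.Quotient.mk v)
      = c • (Submodule.Quotient.mk v)
    rw [Submodule.mapQ_apply, ← Submodule.Quotient.mk_smul, Submodule.Quotient.eq]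
    rw [LinearMap.mem_ker, map_sub, hf, map_smul, smul_eq_mul, sub_self]
  rw [h2, LinearMap.det_smul, hrank, LinearMap.det_id, pow_one, mul_one]

/-- A discrete additive subgroup of a finite dimensional space is spanned over the integers by
vectors which are linearly independent over the reals. -/
theorem exists_lat_basis {E : Type*} [NormedAddCommGroup E] [NormedSpace ℝ E]
    [FiniteDimensional ℝ E] (U : Submodule ℤ E) (hU : DiscreteTopology U) :
    ∃ b : Fin (finrank ℝ (span ℝ (U : Set E))) → E, LinearIndependent ℝ b ∧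
      span ℤ (Set.range b) = U := by
  let F := span ℝ (U : Set E)
  have hUF : U ≤ F.restrictScalars ℤ := fun u hu => subset_span hu
  let L : Submodule ℤ F := U.comap (F.restrictScalars ℤ).subtype
  let f := Submodule.comapSubtypeEquivOfLe hUF
  have hL : DiscreteTopology L := by
    let e : U ≃L[ℤ] L :=
      ⟨f.symm, continuous_of_discreteTopology, Isometry.continuous fun _ ↦ congrFun rfl⟩
    exact e.toHomeomorph.discreteTopology
  have hZ : IsZLattice ℝ L := by
    refine ⟨eq_top_iff.2 ?_⟩
    exact (span_span_coe_preimage (R := ℝ) (s := (U : Set E))).symm.le.trans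
      (span_mono fun x hx => hx)
  have h1 : Module.Finite ℤ L := ZLattice.module_finite ℝ L
  have h2 : Module.Free ℤ L := ZLattice.module_free ℝ L
  let b0 : Basis (Fin (finrank ℤ L)) ℤ L := Module.finBasis ℤ L
  have h3 : finrank ℤ L = finrank ℝ F := ZLattice.rank ℝ L
  let b1 : Basis (Fin (finrank ℝ F)) ℤ L := b0.reindex (finCongr h3)
  have h4 := b1.ofZLatticeBasis_span ℝ
  refine ⟨fun i => ((b1.ofZLatticeBasis ℝ L) i : E), ?_, ?_⟩
  · have h5 := (b1.ofZLatticeBasis ℝ L).linearIndependent
    exact h5.map' F.subtype (Submodule.ker_subtype F)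
  · have h5 : Set.range (fun i => ((b1.ofZLatticeBasis ℝ L) i : E)) =
        (F.restrictScalars ℤ).subtype '' Set.range (b1.ofZLatticeBasis ℝ L) := by
      ext x
      constructor
      · rintro ⟨i, rfl⟩
        exact ⟨_, ⟨i, rfl⟩, rfl⟩
      · rintro ⟨_, ⟨i, rfl⟩, rfl⟩
        exact ⟨i, rfl⟩
    rw [h5, Submodule.span_image]
    have h6 := congrArg (Submodule.map (F.restrictScalars ℤ).subtype) h4
    refine Eq.trans h6 ?_
    change Submodule.map _ (U.comap _) = U
    rw [Submodule.map_comap_subtype]
    exact inf_eq_right.2 hUF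

theorem exists_lat_basis' {E : Type*} [NormedAddCommGroup E] [NormedSpace ℝ E]
    [FiniteDimensional ℝ E] (U : Submodule ℤ E) (hU : DiscreteTopology U) :
    ∃ (r : ℕ) (b : Fin r → E), LinearIndependent ℝ b ∧ span ℤ (Set.range b) = U ∧
      span ℝ (Set.range b) = span ℝ (U : Set E) := by
  obtain ⟨b, hb, hs⟩ := exists_lat_basis U hU
  refine ⟨_, b, hb, hs, ?_⟩
  apply le_antisymm
  · exact span_mono (subset_span.trans hs.le)
  · rw [span_le]
    have hle : span ℤ (Set.range b) ≤ (span ℝ (Set.range b)).restrictScalars ℤ :=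
      span_le.2 subset_span
    exact fun x hx => hle (hs.ge hx)

end Pool.Agent.H817.MA
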