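import Pool.Graph.R_seed8.W689.Mk.Sec
import Pool.Agent.H817.MA.Lat

/-!
Consequences of proper discontinuity for closed special affine manifolds with injective developing
map.
-/

set_option autoImplicit false

namespace Pool.Agent.H817.MA

open Pool.Agent.W689.Mk Set Filter Topology

variable {X Γ E : Type} [TopologicalSpace X] [T2Space X] [Group Γ] [MulAction Γ X]
  [NormedAddCommGroup E] [NormedSpace ℝ E] [FiniteDimensional ℝ E]
  {dev : X → E} {hol : Γ →* (E ≃ᵃ[ℝ] E)}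

theorem finite_near (D : AffData X Γ E dev hol) (hinj : Function.Injective dev) (x : X) :
    ∃ ε : ℝ, 0 < ε ∧ {γ : Γ | ‖hol γ (dev x) - dev x‖ < ε}.Finite := by
  obtain ⟨e, r, hx, he, hr, hb⟩ := exists_sec D.loc x
  have hsub : Metric.closedBall (dev x) (r / 2) ⊆ e.target :=
    (Metric.closedBall_subset_ball (by linarith)).trans hb
  obtain ⟨K, hK⟩ : ∃ K, K = e.symm '' Metric.closedBall (dev x) (r / 2) := ⟨_, rfl⟩
  have hKc : IsCompact K := by
    rw [hK]
    exact (isCompact_closedBall (dev x) (r / 2)).image_of_continuousOn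
      (e.continuousOn_symm.mono hsub)
  refine ⟨r / 2, by linarith, (D.pd K hKc).subset ?_⟩
  intro γ hγ
  have hγ' : ‖hol γ (dev x) - dev x‖ < r / 2 := hγ
  have h1 : dev (γ • x) ∈ Metric.closedBall (dev x) (r / 2) := by
    rw [D.equi, mem_closedBall_iff_norm]
    exact hγ'.le
  refine ⟨x, ?_, ?_⟩
  · rw [hK]
    refine ⟨dev x, Metric.mem_closedBall_self (by linarith), ?_⟩
    rw [he]
    exact e.left_inv hx
  · rw [hK]
    refine ⟨dev (γ • x), h1, ?_⟩
    apply hinj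
    have h2 := e.right_inv (hsub h1)
    rw [← he] at h2
    exact h2

omit [FiniteDimensional ℝ E] [NormedSpace ℝ E] in
theorem discrete_of_finite (U : Submodule ℤ E) (ε : ℝ) (hε : 0 < ε)
    (hf : {u : E | u ∈ U ∧ ‖u‖ < ε}.Finite) : DiscreteTopology U := by
  have h1 : ∃ δ : ℝ, 0 < δ ∧ ∀ u ∈ U, ‖u‖ < δ → u = 0 := by
    by_cases hne : ({u : E | u ∈ U ∧ ‖u‖ < ε} \ {0}).Nonempty
    · obtain ⟨u0, hu0, hmin⟩ := Set.exists_min_image _ (fun u : E => ‖u‖) hf.sdiff hne
      refine ⟨‖u0‖, norm_pos_iff.2 hu0.2, ?_⟩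
      intro u hu hlt
      by_contra h0
      have h2 := hmin u ⟨⟨hu, hlt.trans hu0.1.2⟩, h0⟩
      linarith
    · refine ⟨ε, hε, ?_⟩
      intro u hu hlt
      by_contra h0
      exact hne ⟨u, ⟨hu, hlt⟩, h0⟩
  obtain ⟨δ, hδ, h2⟩ := h1
  rw [discreteTopology_iff_isOpen_singleton_zero]
  rw [Metric.isOpen_iff]
  intro u hu
  rw [mem_singleton_iff] at hu
  subst hu
  refine ⟨δ, hδ, ?_⟩
  intro v hv
  rw [mem_ball_zero_iff] at hv
  rw [mem_singleton_iff]
  exact Subtype.ext (h2 v.1 v.2 hv)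

end Pool.Agent.H817.MA
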