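import Pool.Graph.R_seed8.W689.Mk.Tube

/-!
Quotients of closed special affine manifolds (with injective developing map) by complete directions
which are spanned cocompactly by translations of the holonomy group.
-/

set_option autoImplicit false

namespace Pool.Agent.H817.MA

open Pool.Agent.W689.Mk Set Filter Topology
open scoped Pointwise

section qmap
variable {Γ E F : Type} [Group Γ] [NormedAddCommGroup E] [NormedSpace ℝ E]
  [NormedAddCommGroup F] [NormedSpace ℝ F]
  (hol : Γ →* (E ≃ᵃ[ℝ] E)) (π : E →ₗ[ℝ] F) (e : F →ₗ[ℝ] E)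

theorem q_key (he : ∀ z, π (e z) = z)
    (hW : ∀ (γ : Γ) (w : E), π w = 0 → π ((hol γ).linear w) = 0) (γ : Γ) (p : E) :
    π (hol γ (e (π p))) = π (hol γ p) := by
  have h1 : hol γ p = hol γ (e (π p)) + lin hol γ (p - e (π p)) := by
    rw [← hol_add, add_sub_cancel]
  rw [h1, map_add]
  have h2 : π (lin hol γ (p - e (π p))) = 0 := hW γ _ (by rw [map_sub, he, sub_self])
  rw [h2, add_zero]

theorem q_key_lin (he : ∀ z, π (e z) = z)
    (hW : ∀ (γ : Γ) (w : E), π w = 0 → π ((hol γ).linear w) = 0) (γ : Γ) (v : E) :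
    π ((hol γ).linear (e (π v))) = π ((hol γ).linear v) := by
  have h2 : π ((hol γ).linear (v - e (π v))) = 0 := hW γ _ (by rw [map_sub, he, sub_self])
  rw [map_sub, map_sub, sub_eq_zero] at h2
  exact h2.symm

/-- the induced affine transformations of the quotient -/
noncomputable def qmap (he : ∀ z, π (e z) = z)
    (hW : ∀ (γ : Γ) (w : E), π w = 0 → π ((hol γ).linear w) = 0) : Γ →* (F ≃ᵃ[ℝ] F) where
  toFun γ :=
    { toFun := fun z => π (hol γ (e z))
      invFun := fun z => π (hol γ⁻¹ (e z))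
      left_inv := fun z => by
        change π (hol γ⁻¹ (e (π (hol γ (e z))))) = z
        rw [q_key hol π e he hW, hol_inv_apply, he]
      right_inv := fun z => by
        change π (hol γ (e (π (hol γ⁻¹ (e z))))) = z
        rw [q_key hol π e he hW, hol_apply_inv, he]
      linear :=
        { toFun := fun z => π ((hol γ).linear (e z))
          map_add' := fun a b => by simp only [map_add]
          map_smul' := fun c a => by simp only [map_smul, RingHom.id_apply]
          invFun := fun z => π ((hol γ⁻¹).linear (e z))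
          left_inv := fun z => by
            change π ((hol γ⁻¹).linear (e (π ((hol γ).linear (e z))))) = z
            rw [q_key_lin hol π e he hW]
            have := lin_inv_apply (hol := hol) γ (e z)
            unfold lin at this
            rw [this, he]
          right_inv := fun z => by
            change π ((hol γ).linear (e (π ((hol γ⁻¹).linear (e z))))) = z
            rw [q_key_lin hol π e he hW]
            have := lin_inv_apply (hol := hol) γ⁻¹ (e z)
            unfold lin at this
            rw [inv_inv] at this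
            rw [this, he] }
      map_vadd' := fun p v => by
        change π (hol γ (e (v + p))) = π ((hol γ).linear (e v)) + π (hol γ (e p))
        rw [map_add, add_comm (e v), hol_add, map_add, add_comm] }
  map_one' := by
    apply AffineEquiv.ext
    intro z
    change π (hol 1 (e z)) = z
    rw [map_one]
    exact he z
  map_mul' γ δ := by
    apply AffineEquiv.ext
    intro z
    change π (hol (γ * δ) (e z)) = π (hol γ (e (π (hol δ (e z)))))
    rw [q_key hol π e he hW, map_mul]
    rfl

end qmap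

section quot
variable {X Γ E F : Type} [TopologicalSpace X] [T2Space X] [SecondCountableTopology X]
  [ConnectedSpace X] [Group Γ] [MulAction Γ X]
  [NormedAddCommGroup E] [NormedSpace ℝ E] [FiniteDimensional ℝ E]
  [NormedAddCommGroup F] [NormedSpace ℝ F] [FiniteDimensional ℝ F]
  {dev : X → E} {hol : Γ →* (E ≃ᵃ[ℝ] E)}

/-- Markus' conjecture for quotients of domains of `F` -/
def MarkusDomains (F : Type) [NormedAddCommGroup F] [NormedSpace ℝ F] : Prop :=
  ∀ (X' Γ' : Type) [TopologicalSpace X'] [T2Space X'] [SecondCountableTopology X']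
    [ConnectedSpace X'] [Group Γ'] [MulAction Γ' X'] (dev' : X' → F) (hol' : Γ' →* (F ≃ᵃ[ℝ] F)),
    AffData X' Γ' F dev' hol' → Function.Injective dev' → IsHomeomorph dev'

theorem quot_complete (D : AffData X Γ E dev hol) (hinj : Function.Injective dev)
    (hF : MarkusDomains F) (π : E →ₗ[ℝ] F) (e : F →ₗ[ℝ] E) (he : ∀ z, π (e z) = z)
    (hW : ∀ (γ : Γ) (w : E), π w = 0 → π ((hol γ).linear w) = 0)
    (hc : ∀ (x : X) (w : E), π w = 0 → ∃ y, dev y = dev x + w)
    (C : Set E) (hC : IsCompact C) (hCW : ∀ c ∈ C, π c = 0)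
    (hT : ∀ w : E, π w = 0 → ∃ (τ : Γ) (d : E), (∀ q, hol τ q = q + d) ∧ w + d ∈ C)
    (hdet : ∀ γ : Γ, |LinearMap.det (π ∘ₗ ((hol γ).linear : E →ₗ[ℝ] E) ∘ₗ e)| = 1) :
    IsHomeomorph dev := by
  have hopen : IsOpenEmbedding dev := D.loc.isOpenEmbedding_of_injective hinj
  have hπc : Continuous π := π.continuous_of_finiteDimensional
  have hπs : Function.Surjective π := fun z => ⟨e z, he z⟩
  have hπo : IsOpenMap π := π.isOpenMap_of_finiteDimensional hπs
  -- the group
  obtain ⟨ρ, hρ⟩ : ∃ ρ, ρ = qmap hol π e he hW := ⟨_, rfl⟩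
  have hρa : ∀ γ z, ρ γ z = π (hol γ (e z)) := fun γ z => by rw [hρ]; rfl
  have hρl : ∀ γ, ((ρ γ).linear : F →ₗ[ℝ] F) = π ∘ₗ ((hol γ).linear : E →ₗ[ℝ] E) ∘ₗ e :=
    fun γ => by rw [hρ]; rfl
  have hρπ : ∀ γ p, ρ γ (π p) = π (hol γ p) := fun γ p => by
    rw [hρa, q_key hol π e he hW]
  let N : Subgroup Γ := ρ.ker
  let G := Γ ⧸ N
  let hol' : G →* (F ≃ᵃ[ℝ] F) := QuotientGroup.lift N ρ (fun γ hγ => hγ)
  have hol'_mk : ∀ γ : Γ, hol' (γ : G) = ρ γ := fun γ => rfl
  -- the domain
  let Y := {z : F // ∃ x : X, π (dev x) = z}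
  have hinv : ∀ (g : G) (z : F), (∃ x : X, π (dev x) = z) → ∃ x : X, π (dev x) = hol' g z := by
    intro g z
    refine QuotientGroup.induction_on g fun γ => ?_
    rintro ⟨x, rfl⟩
    exact ⟨γ • x, by rw [D.equi, hol'_mk, hρπ]⟩
  let act : MulAction G Y :=
    { smul := fun g z => ⟨hol' g z.1, hinv g z.1 z.2⟩
      one_smul := fun z => Subtype.ext (by
        change hol' 1 z.1 = z.1
        rw [map_one]
        rfl)
      mul_smul := fun g h z => Subtype.ext (by
        change hol' (g * h) z.1 = hol' g (hol' h z.1)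
        rw [map_mul]
        rfl) }
  have hsmul : ∀ (g : G) (z : Y), ((g • z : Y) : F) = hol' g z.1 := fun g z => rfl
  let p : X → Y := fun x => ⟨π (dev x), x, rfl⟩
  have hp : Continuous p := (hπc.comp D.loc.continuous).subtype_mk _
  have hps : Function.Surjective p := by
    rintro ⟨z, x, rfl⟩
    exact ⟨x, rfl⟩
  have hYo : IsOpen {z : F | ∃ x : X, π (dev x) = z} := by
    have : {z : F | ∃ x : X, π (dev x) = z} = π '' (range dev) := by
      ext z
      constructor
      · rintro ⟨x, hx⟩
        exact ⟨dev x, ⟨x, rfl⟩, hx⟩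
      · rintro ⟨_, ⟨x, rfl⟩, hx⟩
        exact ⟨x, hx⟩
    rw [this]
    exact hπo _ hopen.isOpen_range
  have hval : IsOpenEmbedding (Subtype.val : Y → F) := hYo.isOpenEmbedding_subtypeVal
  have hpo : IsOpenMap p := by
    intro U hU
    have h1 : (Subtype.val : Y → F) '' (p '' U) = π '' (dev '' U) := by
      ext z
      constructor
      · rintro ⟨_, ⟨x, hx, rfl⟩, rfl⟩
        exact ⟨dev x, ⟨x, hx, rfl⟩, rfl⟩
      · rintro ⟨_, ⟨x, hx, rfl⟩, rfl⟩
        exact ⟨p x, ⟨x, hx, rfl⟩, rfl⟩
    have h2 : IsOpen ((Subtype.val : Y → F) '' (p '' U)) := by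
      rw [h1]
      exact hπo _ (hopen.isOpenMap _ hU)
    exact (hval.isOpen_iff_image_isOpen).2 h2
  have : ConnectedSpace Y := hps.connectedSpace hp
  -- compact sets lift
  have hlift : ∀ K' : Set Y, IsCompact K' → ∃ K : Set X, IsCompact K ∧ K' ⊆ p '' K := by
    intro K' hK'
    have h1 : ∀ z ∈ K', ∃ C : Set X, IsCompact C ∧ p '' C ∈ 𝓝 z := by
      intro z _
      obtain ⟨x, rfl⟩ := hps z
      obtain ⟨e', r, hx, he', hr, hb⟩ := exists_sec D.loc x
      have hsub : Metric.closedBall (dev x) (r / 2) ⊆ e'.target :=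
        (Metric.closedBall_subset_ball (by linarith)).trans hb
      refine ⟨e'.symm '' Metric.closedBall (dev x) (r / 2),
        (isCompact_closedBall (dev x) (r / 2)).image_of_continuousOn
          (e'.continuousOn_symm.mono hsub), ?_⟩
      refine hpo.image_mem_nhds ?_
      have h2 : dev ⁻¹' Metric.closedBall (dev x) (r / 2) ∈ 𝓝 x :=
        D.loc.continuous.continuousAt.preimage_mem_nhds
          (Metric.closedBall_mem_nhds _ (by linarith))
      filter_upwards [h2] with y hy
      refine ⟨dev y, hy, ?_⟩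
      apply hinj
      have h3 := e'.right_inv (hsub hy)
      rw [← he'] at h3
      exact h3
    choose! C' hC' hCn using h1
    obtain ⟨t, ht, hcov⟩ := hK'.elim_nhds_subcover (fun z => p '' C' z) (fun z hz => hCn z hz)
    refine ⟨⋃ z ∈ t, C' z, t.isCompact_biUnion fun z hz => hC' z (ht z hz), ?_⟩
    intro z hz
    have h2 := hcov hz
    simp only [mem_iUnion] at h2
    obtain ⟨i, hi, x, hx, hxz⟩ := h2
    exact ⟨x, by simp only [mem_iUnion]; exact ⟨i, hi, hx⟩, hxz⟩
  have hact_cont : ∀ g : G, Continuous fun z : Y => g • z := by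
    intro g
    refine Continuous.subtype_mk ?_ _
    exact ((hol' g).toAffineMap.continuous_of_finiteDimensional).comp continuous_subtype_val
  have DY : AffData Y G F Subtype.val hol' := by
    refine ⟨hval.isLocalHomeomorph, hact_cont, fun g z => rfl, ?_, ?_, ?_⟩
    · intro g
      refine QuotientGroup.induction_on g fun γ => ?_
      rw [hol'_mk, hρl]
      exact hdet γ
    · intro K' hK'
      obtain ⟨K, hK, hKK'⟩ := hlift K' hK'
      obtain ⟨K2, hK2⟩ : ∃ K2, K2 = dev ⁻¹' (dev '' K + C) := ⟨_, rfl⟩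
      have hK2c : IsCompact K2 := by
        rw [hK2]
        refine hopen.isInducing.isCompact_preimage' ((hK.image D.loc.continuous).add hC) ?_
        rintro _ ⟨_, ⟨x, hx, rfl⟩, c, hcC, rfl⟩
        obtain ⟨y, hy⟩ := hc x c (hCW c hcC)
        exact ⟨y, hy⟩
      have hfin := D.pd (K ∪ K2) (hK.union hK2c)
      refine (hfin.image (fun γ : Γ => (γ : G))).subset ?_
      intro g
      refine QuotientGroup.induction_on g fun γ => ?_
      rintro ⟨z, hz, hgz⟩
      obtain ⟨k1, hk1, hk1z⟩ := hKK' hz
      obtain ⟨k2, hk2, hk2z⟩ := hKK' hgz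
      have h1 : π (dev k2) = π (dev (γ • k1)) := by
        have h2 : (p k2 : F) = ((((γ : Γ) : G) • z : Y) : F) := by rw [hk2z]
        rw [hsmul, hol'_mk, ← hk1z] at h2
        change π (dev k2) = ρ γ (π (dev k1)) at h2
        rw [hρπ] at h2
        rw [h2, D.equi]
      obtain ⟨τ, d, hτ, hd⟩ := hT (dev (γ • k1) - dev k2) (by rw [map_sub, h1, sub_self])
      refine ⟨τ * γ, ⟨k1, Or.inl hk1, Or.inr ?_⟩, ?_⟩
      · rw [hK2]
        refine ⟨dev k2, ⟨k2, hk2, rfl⟩, dev (γ • k1) - dev k2 + d, hd, ?_⟩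
        rw [mul_smul, D.equi τ, hτ]
        change dev k2 + (dev (γ • k1) - dev k2 + d) = _
        abel
      · have hτN : τ ∈ N := by
          rw [MonoidHom.mem_ker]
          apply AffineEquiv.ext
          intro z
          rw [hρa, hτ, map_add, he]
          have h3 := hCW _ hd
          rw [map_add, map_sub, h1, sub_self, zero_add] at h3
          rw [h3, add_zero]
          rfl
        change ((τ * γ : Γ) : G) = (γ : G)
        rw [QuotientGroup.mk_mul, (QuotientGroup.eq_one_iff τ).2 hτN, one_mul]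
    · obtain ⟨K, hK, hKc⟩ := D.cc
      refine ⟨p '' K, hK.image hp, ?_⟩
      intro z
      obtain ⟨x, rfl⟩ := hps z
      obtain ⟨γ, k, hk, hx⟩ := hKc x
      refine ⟨(γ : G), p k, ⟨k, hk, rfl⟩, ?_⟩
      apply Subtype.ext
      rw [hsmul, hol'_mk]
      change ρ γ (π (dev k)) = π (dev x)
      rw [hρπ, ← D.equi, hx]
  have hY := hF Y G (Subtype.val : Y → F) hol' DY Subtype.val_injective
  have hsurj : Function.Surjective dev := by
    intro q
    obtain ⟨⟨z, x, hx⟩, hz⟩ := hY.surjective (π q)
    have h1 : π (q - dev x) = 0 := by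
      rw [map_sub, hx, ← hz, sub_self]
    obtain ⟨y, hy⟩ := hc x _ h1
    exact ⟨y, by rw [hy]; abel⟩
  exact ⟨D.loc.continuous, hopen.isOpenMap, hinj, hsurj⟩

end quot

end Pool.Agent.H817.MA
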