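import Pool.Agent.H817.MA.Prop
import Pool.Agent.H817.MA.Quot
import Pool.Graph.R_pool_sql_team_seeded_1acbe0a2.Results.MP_df2bd8_gt.DomainQuotients
import Pool.Graph.R_pool_sql_team_seeded_63374d34.Results.MP_df2bd8_gt.RankOneSubspaces
import Pool.Graph.R_seed8.Results.MP_df2bd8_gt.SolvableGroups
import Pool.Graph.R_seed8.TH569.MK.Chain

/-!
Closed special affine 3-manifolds with injective developing map and a translation in the holonomy
group are complete.
-/

set_option autoImplicit false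
set_option linter.unusedSectionVars false

namespace Pool.Agent.H817.MA

open Pool.Agent.W689.Mk Set Filter Topology Module
open Pool.Agent.Results.MP_df2bd8_gt
open scoped Pointwise

/-- Markus' conjecture for quotients of plane domains -/
theorem markus_two {F : Type} [NormedAddCommGroup F] [NormedSpace ℝ F] [FiniteDimensional ℝ F]
    (h2 : finrank ℝ F = 2) : MarkusDomains F := by
  intro X' Γ' _ _ _ _ _ _ dev' hol' D' hinj'
  have h := RankOneSubspaces.result.1 F X' Γ' dev' hol' D' hinj' ⊤ inferInstance ⊤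
    (Or.inr ⟨by rw [finrank_top, h2], fun _ _ _ => Submodule.mem_top⟩)
  exact h

/-- multiplicativity of the determinant, for a surjection with a section -/
theorem det_section {E F : Type*} [AddCommGroup E] [Module ℝ E] [FiniteDimensional ℝ E]
    [AddCommGroup F] [Module ℝ F] [FiniteDimensional ℝ F]
    (π : E →ₗ[ℝ] F) (e : F →ₗ[ℝ] E) (he : ∀ z, π (e z) = z) (f : E →ₗ[ℝ] E)
    (h : ∀ v ∈ LinearMap.ker π, f v ∈ LinearMap.ker π) :
    LinearMap.det f = LinearMap.det (f.restrict h) * LinearMap.det (π ∘ₗ f ∘ₗ e) := by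
  have h1 := LinearMap.det_eq_det_mul_det (LinearMap.ker π) f (fun v hv => h v hv)
  rw [h1]
  congr 1
  have hs : Function.Surjective π := fun z => ⟨e z, he z⟩
  let Q := LinearMap.quotKerEquivOfSurjective π hs
  rw [← LinearMap.det_conj ((LinearMap.ker π).mapQ (LinearMap.ker π) f (fun v hv => h v hv)) Q]
  congr 1
  refine LinearMap.ext fun z => ?_
  have hz : Q.symm z = Submodule.Quotient.mk (e z) := by
    rw [LinearEquiv.symm_apply_eq]
    change z = π (e z)
    rw [he]
  change Q ((LinearMap.ker π).mapQ (LinearMap.ker π) f (fun v hv => h v hv) (Q.symm z)) = π (f (e z))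
  rw [hz, Submodule.mapQ_apply]
  rfl

section
variable {X Γ E : Type} [TopologicalSpace X] [T2Space X] [SecondCountableTopology X]
  [ConnectedSpace X] [Group Γ] [MulAction Γ X]
  [NormedAddCommGroup E] [NormedSpace ℝ E] [FiniteDimensional ℝ E]
  {dev : X → E} {hol : Γ →* (E ≃ᵃ[ℝ] E)}

/-- the translation vectors of the holonomy group -/
def transl (hol : Γ →* (E ≃ᵃ[ℝ] E)) : Submodule ℤ E where
  carrier := {d | ∃ γ : Γ, ∀ q, hol γ q = q + d}
  zero_mem' := ⟨1, fun q => by rw [map_one, add_zero]; rfl⟩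
  add_mem' := by
    rintro a b ⟨γ, hγ⟩ ⟨δ, hδ⟩
    refine ⟨γ * δ, fun q => ?_⟩
    rw [map_mul]
    change hol γ (hol δ q) = _
    rw [hδ, hγ]
    abel
  smul_mem' := by
    rintro n a ⟨γ, hγ⟩
    refine ⟨γ ^ n, fun q => ?_⟩
    have hnat : ∀ k : ℕ, ∀ q, hol (γ ^ k) q = q + (k : ℤ) • a := by
      intro k
      induction k with
      | zero => intro q; rw [pow_zero, map_one, Nat.cast_zero, zero_smul, add_zero]; rfl
      | succ k ih =>
        intro q
        rw [pow_succ, map_mul]
        change hol (γ ^ k) (hol γ q) = _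
        rw [hγ, ih, Nat.cast_succ, add_smul, one_smul]
        abel
    rcases Int.eq_nat_or_neg n with ⟨k, rfl | rfl⟩
    · rw [zpow_natCast]
      exact hnat k q
    · rw [zpow_neg, zpow_natCast]
      have h1 := hnat k (hol (γ ^ k)⁻¹ q)
      rw [hol_apply_inv] at h1
      rw [neg_smul]
      exact (eq_sub_of_add_eq h1.symm).trans (sub_eq_add_neg _ _)

theorem mem_transl (d : E) : d ∈ transl hol ↔ ∃ γ : Γ, ∀ q, hol γ q = q + d := Iff.rfl

omit [FiniteDimensional ℝ E] in
theorem transl_inv (γ : Γ) {d : E} (hd : d ∈ transl hol) : (hol γ).linear d ∈ transl hol := by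
  obtain ⟨τ, hτ⟩ := hd
  refine ⟨γ * τ * γ⁻¹, fun q => ?_⟩
  rw [map_mul, map_mul]
  change hol γ (hol τ (hol γ⁻¹ q)) = _
  rw [hτ, hol_add, hol_apply_inv]

theorem transl_discrete (D : AffData X Γ E dev hol) (hinj : Function.Injective dev) :
    DiscreteTopology (transl hol) := by
  obtain ⟨x⟩ : Nonempty X := inferInstance
  obtain ⟨ε, hε, hfin⟩ := finite_near D hinj x
  refine discrete_of_finite _ ε hε ?_
  refine (hfin.image fun γ => hol γ (dev x) - dev x).subset ?_
  rintro u ⟨⟨γ, hγ⟩, hu⟩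
  refine ⟨γ, ?_, ?_⟩
  · change ‖hol γ (dev x) - dev x‖ < ε
    rw [hγ, add_sub_cancel_left]
    exact hu
  · change hol γ (dev x) - dev x = u
    rw [hγ, add_sub_cancel_left]

/-- the linear maps of a lattice of translations: absolute value of the determinant one -/
theorem det_on_span {r : ℕ} (b : Fin r → E) (hb : LinearIndependent ℝ b) (f g : E →ₗ[ℝ] E)
    (hfg : ∀ v, f (g v) = v) (hf : ∀ j, f (b j) ∈ Submodule.span ℤ (range b))
    (hg : ∀ j, g (b j) ∈ Submodule.span ℤ (range b))
    (h : ∀ v ∈ Submodule.span ℝ (range b), f v ∈ Submodule.span ℝ (range b)) :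
    |LinearMap.det (f.restrict h)| = 1 := by
  have hle : Submodule.span ℤ (range b) ≤ (Submodule.span ℝ (range b)).restrictScalars ℤ :=
    Submodule.span_le.2 Submodule.subset_span
  have h' : ∀ v ∈ Submodule.span ℝ (range b), g v ∈ Submodule.span ℝ (range b) := by
    intro v hv
    have : Submodule.span ℝ (range b) ≤ (Submodule.span ℝ (range b)).comap g := by
      rw [Submodule.span_le]
      rintro _ ⟨j, rfl⟩
      exact hle (hg j)
    exact this hv
  let B := Basis.span hb
  have hB : ∀ j, ((B j : Submodule.span ℝ (range b)) : E) = b j := fun j => by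
    exact congrArg Subtype.val (Basis.span_apply hb j)
  have key : ∀ (k : E →ₗ[ℝ] E) (hk : ∀ v ∈ Submodule.span ℝ (range b), k v ∈
      Submodule.span ℝ (range b)) (_ : ∀ j, k (b j) ∈ Submodule.span ℤ (range b)) (j : Fin r),
      (k.restrict hk) (B j) ∈ Submodule.span ℤ (range B) := by
    intro k hk hkb j
    have h1 := hkb j
    have h2 : Submodule.span ℤ (range b) =
        (Submodule.span ℤ (range B)).map
          ((Submodule.span ℝ (range b)).subtype.restrictScalars ℤ) := by
      rw [← Submodule.span_image]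
      congr 1
      ext v
      constructor
      · rintro ⟨i, rfl⟩
        exact ⟨B i, ⟨i, rfl⟩, hB i⟩
      · rintro ⟨_, ⟨i, rfl⟩, rfl⟩
        exact ⟨i, (hB i).symm⟩
    rw [h2] at h1
    obtain ⟨v, hv, hvk⟩ := h1
    have h3 : v = (k.restrict hk) (B j) := by
      apply Subtype.ext
      change (v : E) = k (B j)
      rw [hB]
      exact hvk
    rw [← h3]
    exact hv
  exact lat_det B (f.restrict h) (g.restrict h') (LinearMap.ext fun v => Subtype.ext (hfg v))
    (key f h hf) (key g h' hg)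

/-- a functional with a given kernel of codimension one -/
theorem exists_functional (W : Submodule ℝ E) (hW : finrank ℝ W + 1 = finrank ℝ E) :
    ∃ φ : E →ₗ[ℝ] ℝ, φ ≠ 0 ∧ LinearMap.ker φ = W := by
  have h1 : finrank ℝ (E ⧸ W) = 1 := by
    have := Submodule.finrank_quotient_add_finrank W
    omega
  obtain ⟨e⟩ : Nonempty ((E ⧸ W) ≃ₗ[ℝ] ℝ) := by
    refine ⟨LinearEquiv.ofFinrankEq _ _ ?_⟩
    rw [h1, finrank_self]
  have hker : LinearMap.ker ((e : (E ⧸ W) →ₗ[ℝ] ℝ) ∘ₗ W.mkQ) = W := by
    rw [LinearEquiv.ker_comp, Submodule.ker_mkQ]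
  refine ⟨(e : (E ⧸ W) →ₗ[ℝ] ℝ) ∘ₗ W.mkQ, ?_, hker⟩
  intro h0
  rw [h0, LinearMap.ker_zero] at hker
  rw [← hker, finrank_top] at hW
  omega

/-- Let the linear holonomy act on the codimension one quotient `E / ker φ` by factors of absolute
value one; then the elements which act trivially form a subgroup of finite index. -/
theorem finiteIndex_of_abs_one (H : Subgroup Γ) (φ : E →ₗ[ℝ] ℝ) (hφ : φ ≠ 0)
    (c : Γ → ℝ) (hc : ∀ γ ∈ H, ∀ v, φ ((hol γ).linear v) = c γ * φ v) (h1 : ∀ γ ∈ H, |c γ| = 1)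
    (hH : H.FiniteIndex) :
    ∃ H' : Subgroup Γ, H'.FiniteIndex ∧ H' ≤ H ∧
      (∀ γ ∈ H', ∀ v, φ ((hol γ).linear v) = φ v) ∧
      ∀ γ ∈ H, (∀ v, φ ((hol γ).linear v) = φ v) → γ ∈ H' := by
  obtain ⟨v0, hv0⟩ : ∃ v, φ v ≠ 0 := by
    by_contra hcon
    push Not at hcon
    exact hφ (LinearMap.ext hcon)
  have hmul : ∀ γ ∈ H, ∀ δ ∈ H, c (γ * δ) = c γ * c δ := by
    intro γ hγ δ hδ
    have e1 := hc (γ * δ) (mul_mem hγ hδ) v0
    have e2 : (hol (γ * δ)).linear v0 = (hol γ).linear ((hol δ).linear v0) :=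
      lin_mul (hol := hol) γ δ v0
    rw [e2, hc γ hγ, hc δ hδ] at e1
    have := mul_right_cancel₀ hv0 (by rw [← e1]; ring : c (γ * δ) * φ v0 = c γ * c δ * φ v0)
    exact this
  have hone : c 1 = 1 := by
    have e1 := hc 1 H.one_mem v0
    have e2 : (hol (1 : Γ)).linear v0 = v0 := by rw [map_one]; rfl
    rw [e2] at e1
    have := mul_right_cancel₀ hv0 (by rw [← e1, one_mul] : c 1 * φ v0 = 1 * φ v0)
    exact this
  let χ : H →* ℝ :=
    { toFun := fun γ => c γ.1
      map_one' := hone
      map_mul' := fun γ δ => hmul γ.1 γ.2 δ.1 δ.2 }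
  let χ' : H →* ℝˣ := χ.toHomUnits
  have hfin : Finite χ'.range := by
    have h2 : (χ'.range : Set ℝˣ) ⊆ {1, -1} := by
      rintro _ ⟨γ, rfl⟩
      have h3 := h1 γ.1 γ.2
      have h4 : ((χ' γ : ℝˣ) : ℝ) = c γ.1 := rfl
      rcases eq_or_eq_neg_of_abs_eq h3 with h5 | h5
      · left
        apply Units.ext
        rw [h4, h5]
        rfl
      · right
        apply Units.ext
        rw [h4, h5]
        rfl
    exact Set.Finite.subset (Set.toFinite _) h2
  have hker : χ'.ker.FiniteIndex := Subgroup.finiteIndex_ker χ'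
  refine ⟨χ'.ker.map H.subtype, ?_, ?_, ?_, ?_⟩
  · constructor
    rw [Subgroup.index_map_subtype]
    exact mul_ne_zero hker.index_ne_zero hH.index_ne_zero
  · rintro _ ⟨γ, _, rfl⟩
    exact γ.2
  · rintro _ ⟨γ, hγ, rfl⟩ v
    have h3 : c γ.1 = 1 := congrArg Units.val (MonoidHom.mem_ker.1 hγ)
    have h4 := hc γ.1 γ.2 v
    rw [h3, one_mul] at h4
    exact h4
  · intro γ hγ hv
    refine ⟨⟨γ, hγ⟩, ?_, rfl⟩
    change χ' ⟨γ, hγ⟩ = 1
    apply Units.ext
    change c γ = 1
    have e1 := hc γ hγ v0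
    rw [hv v0] at e1
    have := mul_right_cancel₀ hv0 (by rw [← e1, one_mul] : c γ * φ v0 = 1 * φ v0)
    exact this

theorem trans_complete (D : AffData X Γ E dev hol) (hinj : Function.Injective dev)
    (h3 : finrank ℝ E = 3) (γ0 : Γ) (d0 : E) (hd0 : d0 ≠ 0) (hγ0 : ∀ q, hol γ0 q = q + d0) :
    IsHomeomorph dev := by
  have hdisc := transl_discrete D hinj
  obtain ⟨r, b, hb, hspan, -⟩ := exists_lat_basis' (transl hol) hdisc
  obtain ⟨W, hW⟩ : ∃ W, W = Submodule.span ℝ (range b) := ⟨_, rfl⟩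
  have hfr : finrank ℝ W = r := by
    rw [hW, finrank_span_eq_card hb, Fintype.card_fin]
  have hr3 : r ≤ 3 := by rw [← hfr, ← h3]; exact Submodule.finrank_le W
  have hUW : ∀ d ∈ (transl hol : Submodule ℤ E), d ∈ W := by
    intro d hd
    rw [← hspan] at hd
    have hle : Submodule.span ℤ (range b) ≤ (Submodule.span ℝ (range b)).restrictScalars ℤ :=
      Submodule.span_le.2 Submodule.subset_span
    rw [hW]
    exact hle hd
  have hbU : ∀ j, b j ∈ (transl hol : Submodule ℤ E) := fun j => by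
    rw [← hspan]; exact Submodule.subset_span ⟨j, rfl⟩
  have hr1 : 1 ≤ r := by
    by_contra hcon
    have : W = ⊥ := Submodule.finrank_eq_zero.1 (by omega)
    have h4 := hUW d0 ⟨γ0, hγ0⟩
    rw [this, Submodule.mem_bot] at h4
    exact hd0 h4
  have hinvt : ∀ γ : Γ, ∀ v ∈ W, (hol γ).linear v ∈ W := by
    intro γ v hv
    have : W ≤ W.comap ((hol γ).linear : E →ₗ[ℝ] E) := by
      conv_lhs => rw [hW]
      rw [Submodule.span_le]
      rintro _ ⟨j, rfl⟩
      exact hUW _ (transl_inv γ (hbU j))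
    exact this hv
  have hlin : ∀ (γ : Γ) (v : E), (hol γ).linear ((hol γ⁻¹).linear v) = v := by
    intro γ v
    have := lin_inv_apply (hol := hol) γ⁻¹ v
    rwa [inv_inv] at this
  rcases (by omega : r = 1 ∨ r = 2 ∨ r = 3) with h | h | h
  · subst h
    -- one direction of translations
    obtain ⟨u, hu⟩ : ∃ u, u = b 0 := ⟨_, rfl⟩
    have hrange : range b = {u} := by
      rw [hu]
      exact Set.range_unique
    have hWu : W = Submodule.span ℝ {u} := by rw [hW, hrange]
    have hu0 : u ≠ 0 := by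
      intro h0
      rw [hWu, h0, Submodule.span_zero_singleton, finrank_bot] at hfr
      omega
    have hmemU : ∀ d, d ∈ (transl hol : Submodule ℤ E) ↔ ∃ n : ℤ, n • u = d := by
      intro d
      rw [← hspan, hrange, Submodule.mem_span_singleton]
    have hmemW : ∀ d, d ∈ W ↔ ∃ s : ℝ, s • u = d := by
      intro d
      rw [hWu, Submodule.mem_span_singleton]
    have hsign : ∀ γ : Γ, ∃ c : ℝ, |c| = 1 ∧ (hol γ).linear u = c • u := by
      intro γ
      obtain ⟨n, hn⟩ := (hmemU _).1 (transl_inv γ (by rw [hu]; exact hbU 0 : u ∈ transl hol))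
      obtain ⟨m, hm⟩ := (hmemU _).1 (transl_inv γ⁻¹ (by rw [hu]; exact hbU 0 : u ∈ transl hol))
      have e1 := hlin γ u
      rw [← hm, map_zsmul, ← hn, smul_smul] at e1
      have e2 : ((m * n : ℤ) : ℝ) • u = (1 : ℝ) • u := by
        rw [one_smul, Int.cast_smul_eq_zsmul]
        exact e1
      have e3 : ((m * n : ℤ) : ℝ) = 1 := smul_left_injective ℝ hu0 e2
      have e4 : m * n = 1 := by exact_mod_cast e3
      refine ⟨n, ?_, ?_⟩
      · rcases Int.eq_one_or_neg_one_of_mul_eq_one' e4 with ⟨_, h5⟩ | ⟨_, h5⟩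
        · rw [h5]; norm_num
        · rw [h5]; norm_num
      · rw [← hn, Int.cast_smul_eq_zsmul]
    obtain ⟨F, hF⟩ := Submodule.exists_isCompl W
    have hFr : finrank ℝ F = 2 := by
      have := Submodule.finrank_add_eq_of_isCompl hF
      omega
    let π : E →ₗ[ℝ] F := Submodule.projectionOnto F W hF.symm
    have hker : ∀ w, π w = 0 ↔ w ∈ W := fun w =>
      Submodule.projectionOnto_apply_eq_zero_iff hF.symm
    have he : ∀ z : F, π (F.subtype z) = z := fun z =>
      Submodule.projectionOnto_apply_left hF.symm z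
    have hcomp : ∀ (x : X) (w : E), w ∈ W → ∃ y, Ex dev x w y := by
      intro x w hw
      refine Pool.Agent.TH569.MK.chain_step D (S := ⊥) (F := W) ?_ ⟨1, ?_⟩ x w hw
      · intro x v hv
        rw [Submodule.mem_bot] at hv
        rw [hv]
        obtain ⟨e', r, hx, he', hr, hb'⟩ := exists_sec D.loc x
        refine ⟨x, _, e'.symm, sec_of_target e' he' (dev x) r hb', Metric.mem_ball_self hr, ?_,
          by rw [add_zero]; exact Metric.mem_ball_self hr, ?_⟩
        · rw [he']; exact e'.left_inv hx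
        · rw [add_zero, he']; exact e'.left_inv hx
      · intro γ v hv
        refine ⟨0, Submodule.zero_mem _, ?_⟩
        obtain ⟨s, rfl⟩ := (hmemW v).1 hv
        obtain ⟨c, hc, hcu⟩ := hsign γ
        have : lin hol γ (s • u) = c • (s • u) := by
          unfold lin
          rw [map_smul, hcu, smul_comm]
        rw [this, sub_zero, norm_smul, Real.norm_eq_abs, hc]
    refine quot_complete D hinj (markus_two hFr) π F.subtype he ?_ ?_
      ((fun s : ℝ => s • u) '' Icc 0 1) (isCompact_Icc.image (by fun_prop)) ?_ ?_ ?_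
    · intro γ w hw
      rw [hker] at hw ⊢
      exact hinvt γ w hw
    · intro x w hw
      rw [hker] at hw
      obtain ⟨y, hy⟩ := hcomp x w hw
      exact ⟨y, hy.dev_eq⟩
    · rintro _ ⟨s, _, rfl⟩
      rw [hker, hmemW]
      exact ⟨s, rfl⟩
    · intro w hw
      rw [hker, hmemW] at hw
      obtain ⟨s, rfl⟩ := hw
      obtain ⟨τ, hτ⟩ := (hmemU ((-⌊s⌋ : ℤ) • u)).2 ⟨_, rfl⟩
      refine ⟨τ, _, hτ, Int.fract s, ⟨Int.fract_nonneg s, (Int.fract_lt_one s).le⟩, ?_⟩
      change Int.fract s • u = s • u + (-⌊s⌋ : ℤ) • u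
      rw [← Int.cast_smul_eq_zsmul ℝ, ← add_smul]
      congr 1
      push_cast
      rw [Int.fract]
      ring
    · intro γ
      have h5 : ∀ v ∈ LinearMap.ker π, ((hol γ).linear : E →ₗ[ℝ] E) v ∈ LinearMap.ker π := by
        intro v hv
        rw [LinearMap.mem_ker, hker] at hv ⊢
        exact hinvt γ v hv
      have h6 := det_section π F.subtype he ((hol γ).linear : E →ₗ[ℝ] E) h5
      obtain ⟨c, hc, hcu⟩ := hsign γ
      have h7 : ((hol γ).linear : E →ₗ[ℝ] E).restrict h5 = c • LinearMap.id := by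
        refine LinearMap.ext fun v => Subtype.ext ?_
        have hv := v.2
        rw [LinearMap.mem_ker, hker, hmemW] at hv
        obtain ⟨s, hs⟩ := hv
        change (hol γ).linear (v : E) = c • (v : E)
        rw [← hs, map_smul, hcu, smul_comm]
      rw [h7, LinearMap.det_smul, LinearMap.det_id, mul_one] at h6
      have h8 := D.unimod γ
      rw [h6, abs_mul, abs_pow, hc, one_pow, one_mul] at h8
      exact h8
  · subst h
    -- a plane of translations
    obtain ⟨φ, hφ0, hφ⟩ := exists_functional W (by rw [hfr, h3])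
    obtain ⟨v0, hv0⟩ : ∃ v, φ v = 1 := by
      obtain ⟨v, hv⟩ := LinearMap.surjective_of_ne_zero hφ0 1
      exact ⟨v, hv⟩
    have hφW : ∀ v, φ v = 0 ↔ v ∈ W := fun v => by rw [← hφ, LinearMap.mem_ker]
    have hc : ∀ γ ∈ (⊤ : Subgroup Γ), ∀ v, φ ((hol γ).linear v) = φ ((hol γ).linear v0) * φ v := by
      intro γ _ v
      have h4 : v - φ v • v0 ∈ W := by
        rw [← hφW, map_sub, map_smul, hv0, smul_eq_mul, mul_one, sub_self]
      have h5 := (hφW _).2 (hinvt γ _ h4)
      rw [map_sub, map_smul, map_sub, map_smul, smul_eq_mul, sub_eq_zero] at h5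
      rw [h5]; ring
    have habs : ∀ γ ∈ (⊤ : Subgroup Γ), |φ ((hol γ).linear v0)| = 1 := by
      intro γ _
      have h4 : ∀ v ∈ LinearMap.ker φ, ((hol γ).linear : E →ₗ[ℝ] E) v ∈ LinearMap.ker φ := by
        intro v hv
        rw [hφ] at hv ⊢
        exact hinvt γ v hv
      have h5 := det_ker φ hφ0 ((hol γ).linear : E →ₗ[ℝ] E) _ (hc γ trivial) h4
      have h6 : |LinearMap.det (((hol γ).linear : E →ₗ[ℝ] E).restrict h4)| = 1 := by
        have h7 : LinearMap.ker φ = Submodule.span ℝ (range b) := by rw [hφ, hW]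
        have h8 : ∀ v ∈ Submodule.span ℝ (range b), ((hol γ).linear : E →ₗ[ℝ] E) v ∈
            Submodule.span ℝ (range b) := by rw [← h7]; exact h4
        have h9 := det_on_span b hb ((hol γ).linear : E →ₗ[ℝ] E) ((hol γ⁻¹).linear : E →ₗ[ℝ] E)
          (hlin γ) (fun j => by rw [hspan]; exact transl_inv γ (hbU j))
          (fun j => by rw [hspan]; exact transl_inv γ⁻¹ (hbU j)) h8
        have h10 : ∀ (S : Submodule ℝ E) (hS : S = Submodule.span ℝ (range b))
            (h4' : ∀ v ∈ S, ((hol γ).linear : E →ₗ[ℝ] E) v ∈ S),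
            |LinearMap.det (((hol γ).linear : E →ₗ[ℝ] E).restrict h4')| = 1 := by
          intro S hS h4'
          subst hS
          exact h9
        exact h10 _ h7 h4
      have h7 := D.unimod γ
      rw [h5, abs_mul, h6, one_mul] at h7
      exact h7
    obtain ⟨H, hH, -, hH1, hH2⟩ := finiteIndex_of_abs_one (hol := hol) ⊤ φ hφ0 _ hc habs
      inferInstance
    refine (DomainQuotients.result E X Γ dev hol D hinj H hH).2 1 ?_
    intro γ hγ δ hδ q
    have h4 : W ≤ Pool.Agent.Y449.MK.Tower hol H 1 := by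
      rw [hW, Submodule.span_le]
      rintro _ ⟨j, rfl⟩
      obtain ⟨τ, hτ⟩ := hbU j
      have hτl : ∀ v, (hol τ).linear v = v := by
        intro v
        have e1 := hol_add (hol := hol) τ 0 v
        rw [zero_add, hτ, hτ, zero_add] at e1
        have : (hol τ).linear v = v + b j - b j := by rw [e1]; unfold lin; abel
        rw [this, add_sub_cancel_right]
      refine Submodule.mem_sup_right (Submodule.subset_span ⟨τ, hH2 τ trivial fun v => by
        rw [hτl], fun q => ?_⟩)
      rw [hτ, add_sub_cancel_left, sub_self]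
      exact Submodule.zero_mem _
    apply h4
    rw [← hφW]
    have key : ∀ γ ∈ H, ∀ q, φ (hol γ q) = φ q + φ (hol γ 0) := by
      intro γ hγ q
      have e1 := hol_add (hol := hol) γ 0 q
      rw [zero_add] at e1
      rw [e1, map_add]
      have e2 := hH1 γ hγ q
      unfold lin
      rw [e2]
      ring
    rw [map_sub, map_mul, map_mul]
    change φ (hol γ (hol δ q)) - φ (hol δ (hol γ q)) = 0
    rw [key γ hγ (hol δ q), key δ hδ q, key δ hδ (hol γ q), key γ hγ q]
    ring
  · subst h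
    have hWt : W = ⊤ := Submodule.eq_top_of_finrank_eq (by rw [hfr, h3])
    refine (DomainQuotients.result E X Γ dev hol D hinj ⊤ inferInstance).2 1 ?_
    intro γ _ δ _ q
    have h4 : W ≤ Pool.Agent.Y449.MK.Tower hol ⊤ 1 := by
      rw [hW, Submodule.span_le]
      rintro _ ⟨j, rfl⟩
      obtain ⟨τ, hτ⟩ := hbU j
      refine Submodule.mem_sup_right (Submodule.subset_span ⟨τ, trivial, fun q => ?_⟩)
      rw [hτ, add_sub_cancel_left, sub_self]
      exact Submodule.zero_mem _
    apply h4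
    rw [hWt]
    trivial

end

end Pool.Agent.H817.MA
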