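import Pool.Agent.H817.MA.Assemble

/-!
Virtually solvable normal subgroups.
-/

set_option autoImplicit false
set_option linter.unusedSectionVars false

namespace Pool.Agent.H817.MA

open Pool.Agent.W689.Mk Set Filter Topology Module MeasureTheory
open Pool.Agent.Results.MP_df2bd8_gt

/-- the join of two normal solvable subgroups is solvable -/
theorem solvable_sup {G : Type*} [Group G] (R S : Subgroup G) [S.Normal]
    (hR : Group.IsSolvable R) (hS : Group.IsSolvable S) : Group.IsSolvable (R ⊔ S : Subgroup G) := by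
  let f : (R ⊔ S : Subgroup G) →* G ⧸ S := (QuotientGroup.mk' S).comp (R ⊔ S).subtype
  have h2 : Group.IsSolvable f.range := by
    have h3 : f.range ≤ R.map (QuotientGroup.mk' S) := by
      rintro _ ⟨x, rfl⟩
      have hx : (x : G) ∈ R ⊔ S := x.2
      have h4 : (R ⊔ S).map (QuotientGroup.mk' S) = R.map (QuotientGroup.mk' S) := by
        rw [Subgroup.map_sup]
        have : S.map (QuotientGroup.mk' S) = ⊥ := by
          rw [Subgroup.map_eq_bot_iff, QuotientGroup.ker_mk']
        rw [this, sup_bot_eq]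
      rw [← h4]
      exact ⟨x, hx, rfl⟩
    have h5 : Group.IsSolvable (R.map (QuotientGroup.mk' S)) :=
      Group.isSolvable_of_surjective ((QuotientGroup.mk' S).subgroupMap_surjective R)
    exact Group.isSolvable_of_isSolvable_injective (Subgroup.inclusion_injective h3)
  refine Group.isSolvable_of_ker_le_range (Subgroup.inclusion (le_sup_right : S ≤ R ⊔ S))
    f.rangeRestrict ?_
  intro x hx
  have h4 : (x : G) ∈ S := by
    rw [MonoidHom.ker_rangeRestrict, MonoidHom.mem_ker] at hx
    exact (QuotientGroup.eq_one_iff _).1 hx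
  exact ⟨⟨x, h4⟩, rfl⟩

/-- virtually solvable groups have a characteristic solvable subgroup of finite index -/
theorem exists_char_solvable {M : Type*} [Group M] (S : Subgroup M) (hSf : S.FiniteIndex)
    (hS : Group.IsSolvable S) :
    ∃ R : Subgroup M, R.Characteristic ∧ Group.IsSolvable R ∧ R.FiniteIndex := by
  classical
  have hex : ∃ n : ℕ, ∃ R : Subgroup M, R.Normal ∧ Group.IsSolvable R ∧ R.FiniteIndex ∧
      R.index = n := by
    refine ⟨_, S.normalCore, S.normalCore_normal, ?_, inferInstance, rfl⟩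
    exact Group.isSolvable_of_isSolvable_injective (Subgroup.inclusion_injective S.normalCore_le)
  obtain ⟨R, hRn, hRs, hRf, hRi⟩ := Nat.find_spec hex
  refine ⟨R, ?_, hRs, hRf⟩
  rw [Subgroup.characteristic_iff_map_le]
  intro φ
  obtain ⟨T, hT⟩ : ∃ T, T = R.map φ.toMonoidHom := ⟨_, rfl⟩
  have hTn : T.Normal := by rw [hT]; exact hRn.map _ φ.surjective
  have hTs : Group.IsSolvable T := by
    rw [hT]
    exact Group.isSolvable_of_surjective (φ.toMonoidHom.subgroupMap_surjective R)
  have hsup : Group.IsSolvable (R ⊔ T : Subgroup M) := solvable_sup R T hRs hTs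
  rw [← hT]
  by_contra hcon
  have hlt : R < R ⊔ T := lt_of_le_of_ne le_sup_left fun h => hcon (by rw [h]; exact le_sup_right)
  have hidx := Subgroup.index_strictAnti hlt
  have hfi : (R ⊔ T : Subgroup M).FiniteIndex := Subgroup.finiteIndex_of_le (le_sup_left : R ≤ R ⊔ T)
  refine Nat.find_min hex (m := (R ⊔ T : Subgroup M).index) (by omega) ⟨R ⊔ T, ?_, hsup, hfi, rfl⟩
  infer_instance

section
variable {X Γ E : Type} [TopologicalSpace X] [T2Space X] [SecondCountableTopology X]
  [ConnectedSpace X] [Group Γ] [MulAction Γ X]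
  [NormedAddCommGroup E] [NormedSpace ℝ E] [FiniteDimensional ℝ E]
  {dev : X → E} {hol : Γ →* (E ≃ᵃ[ℝ] E)}

theorem virtually_solvable_normal (D : AffData X Γ E dev hol) (hinj : Function.Injective dev)
    (h3 : finrank ℝ E = 3) (K N : Subgroup Γ) (hK : K.FiniteIndex)
    (hnor : CommensuratedSubgroups.Normalises hol K N)
    (S : Subgroup (N.map hol)) (hSf : S.FiniteIndex) (hsol : Group.IsSolvable S)
    (hne : ∃ a ∈ N, ∃ q : E, hol a q ≠ q) : IsHomeomorph dev := by
  obtain ⟨R, hRc, hRs, hRf⟩ := exists_char_solvable S hSf hsol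
  -- conjugation by elements of K
  have hcM : ∀ γ ∈ K, ∀ m ∈ N.map hol, hol γ * m * (hol γ)⁻¹ ∈ N.map hol := by
    rintro γ hγ _ ⟨a, ha, rfl⟩
    obtain ⟨c, hc, h1⟩ := hnor γ hγ a ha
    refine ⟨c, hc, ?_⟩
    rw [← map_inv, ← map_mul, ← map_mul]
    exact (AffineEquiv.ext fun q => (h1 q).symm)
  have hcR : ∀ γ ∈ K, ∀ m ∈ R.map (N.map hol).subtype, hol γ * m * (hol γ)⁻¹ ∈
      R.map (N.map hol).subtype := by
    rintro γ hγ _ ⟨m, hm, rfl⟩
    let c : (N.map hol) ≃* (N.map hol) :=
      { toFun := fun x => ⟨hol γ * x * (hol γ)⁻¹, hcM γ hγ _ x.2⟩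
        invFun := fun x => ⟨hol γ⁻¹ * x * (hol γ⁻¹)⁻¹, hcM γ⁻¹ (K.inv_mem hγ) _ x.2⟩
        left_inv := by
          intro x
          apply Subtype.ext
          change hol γ⁻¹ * (hol γ * x * (hol γ)⁻¹) * (hol γ⁻¹)⁻¹ = x
          rw [map_inv]
          group
        right_inv := by
          intro x
          apply Subtype.ext
          change hol γ * (hol γ⁻¹ * x * (hol γ⁻¹)⁻¹) * (hol γ)⁻¹ = x
          rw [map_inv]
          group
        map_mul' := by
          intro x y
          apply Subtype.ext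
          change hol γ * ((x : E ≃ᵃ[ℝ] E) * y) * (hol γ)⁻¹ =
            hol γ * x * (hol γ)⁻¹ * (hol γ * y * (hol γ)⁻¹)
          group }
    have h1 := (Subgroup.characteristic_iff_map_le.1 hRc c) ⟨m, hm, rfl⟩
    exact ⟨c m, h1, rfl⟩
  obtain ⟨N', hN'⟩ : ∃ N', N' = (R.map (N.map hol).subtype).comap hol := ⟨_, rfl⟩
  have hN'm : N'.map hol = R.map (N.map hol).subtype := by
    rw [hN']
    apply le_antisymm
    · exact Subgroup.map_comap_le _ _
    · rintro _ ⟨m, hm, rfl⟩
      obtain ⟨a, ha, ham⟩ : (m : E ≃ᵃ[ℝ] E) ∈ N.map hol := m.2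
      refine ⟨a, ?_, ham⟩
      change hol a ∈ R.map (N.map hol).subtype
      rw [ham]
      exact ⟨m, hm, rfl⟩
  by_cases hR0 : R = ⊥
  · -- the holonomy of N is finite
    exfalso
    have hfin : Finite (N.map hol) := by
      have h1 : R.index ≠ 0 := hRf.index_ne_zero
      rw [hR0, Subgroup.index_bot] at h1
      exact Nat.finite_of_card_ne_zero h1
    let _ : MeasurableSpace E := borel E
    have : BorelSpace E := ⟨rfl⟩
    rcases (CommensuratedSubgroups.result E X Γ dev hol D K N hK).normal hnor with h | h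
    · obtain ⟨a, ha, q, hq⟩ := hne
      exact hq (h a ha q)
    · obtain ⟨g, hg, h1⟩ := h (Measure.dirac 0) inferInstance
      rw [ae_dirac_eq, eventually_pure] at h1
      have hb : (range fun k => ‖hol (g k) (0 : E)‖).Finite := by
        have h2 : (range fun m : (N.map hol) => ‖(m : E ≃ᵃ[ℝ] E) (0 : E)‖).Finite :=
          Set.finite_range _
        refine h2.subset ?_
        rintro _ ⟨k, rfl⟩
        exact ⟨⟨hol (g k), g k, hg k, rfl⟩, rfl⟩
      obtain ⟨C, hC⟩ := hb.bddAbove
      obtain ⟨k, hk⟩ := (h1.eventually_gt_atTop C).exists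
      exact absurd (hC ⟨k, rfl⟩) (not_le.2 hk)
  · refine solvable_normal D hinj h3 K N' hK ?_ ?_ ?_
    · intro γ hγ a ha
      refine ⟨γ * a * γ⁻¹, ?_, fun q => rfl⟩
      rw [hN', Subgroup.mem_comap] at ha ⊢
      rw [map_mul, map_mul, map_inv]
      exact hcR γ hγ _ ha
    · rw [hN'm]
      exact Group.isSolvable_of_surjective ((N.map hol).subtype.subgroupMap_surjective R)
    · obtain ⟨b, hb, hb1⟩ : ∃ b ∈ R, b ≠ 1 := by
        by_contra hcon
        push Not at hcon
        exact hR0 (eq_bot_iff.2 fun b hb => Subgroup.mem_bot.2 (hcon b hb))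
      obtain ⟨a, ha, hab⟩ : (b : E ≃ᵃ[ℝ] E) ∈ N.map hol := b.2
      refine ⟨a, ?_, ?_⟩
      · rw [hN', Subgroup.mem_comap, hab]
        exact ⟨b, hb, rfl⟩
      · by_contra hcon
        push Not at hcon
        apply hb1
        apply Subtype.ext
        rw [← hab]
        exact AffineEquiv.ext hcon

end

end Pool.Agent.H817.MA
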